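import Pool.Agent.FIC.BX
import Pool.Agent.FS16.NFam

/-!
# Definitions: cycles of indifferent components which are not disks

`multiCycles f`: the cycles of indifferent Fatou components which are not disks (all components of the
cycle are indifferent, and complements of `N ≥ 2` pairwise disjoint rational closed disks).
`zpt c` is the type II point of the chart `c`.
-/

open Polynomial Pool.Agent

noncomputable section

namespace FS16

universe u

variable {K : Type u} [NontriviallyNormedField K]

/-- the complement of at least two pairwise disjoint rational closed disks -/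
def HasHoles (U : Set (FIC.BerkP K)) : Prop := ∃ N : ℕ, 2 ≤ N ∧ ∃ V : Fin N → Set (FIC.BerkP K),
  (∀ i, FIC.IsRatClosedDisk (V i)) ∧ (∀ i j, i ≠ j → Disjoint (V i) (V j)) ∧ U = (⋃ i, V i)ᶜ

/-- the cycles of indifferent Fatou components which are not disks -/
def multiCycles (f : FIC.RatMap K) : Set (Set (Set (FIC.BerkP K))) :=
  {C | (∃ U, C = FIC.cycleOf f U) ∧ ∀ U ∈ C, FIC.IsIndifferent f U ∧ HasHoles U}

/-- the rational map -/
def toRM (f : FIC.RatMap K) : RM K := ⟨f.P, f.Q, f.coprime⟩

theorem toRM_deg (f : FIC.RatMap K) : (toRM f).deg = f.degree := rfl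

/-- the type II point of a chart -/
def zpt [IsUltrametricDist K] [IsAlgClosed K] (c : Chart K) : FIC.BerkP K :=
  ((FIC.gp c.a ‖c.ρ‖ : FIC.BerkA K) : FIC.BerkP K)

end FS16
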