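import Pool.Agent.FIC.BZ
import Pool.Agent.FS16.NSame
import Pool.Agent.FS31.Defs

/-!
# Dictionary between the Berkovich line (FIC) and the projective line over `K` (FS16)

* `toRM f`: the rational map as a map of `OnePoint K`; `map_toP`: the two actions agree on the points
  of type I.
* `zpt c`: the type II point of the chart `c`; `zpt_eq_iff`: `zpt c = zpt c'` iff `SamePt c c'`.
* `card_filter_fibM`: the counting function of `FIC/Defs.lean` in terms of the fibres `fibM`.
-/

open Polynomial

noncomputable section

namespace FS31

open Pool.Agent.FIC FS16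

universe u

variable {K : Type u} [NontriviallyNormedField K]

theorem toP_coe (x : K) : toP (x : OnePoint K) = ((pt x : BerkA K) : BerkP K) := rfl

theorem toP_infty : toP (OnePoint.infty : OnePoint K) = OnePoint.infty := rfl

theorem toP_injective [IsUltrametricDist K] [IsAlgClosed K] :
    Function.Injective (toP : OnePoint K → BerkP K) := by
  intro x y h
  cases x using OnePoint.rec with
  | infty =>
    cases y using OnePoint.rec with
    | infty => rfl
    | coe y => exact absurd h (OnePoint.infty_ne_coe _)
  | coe x =>
    cases y using OnePoint.rec with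
    | infty => exact absurd h (OnePoint.coe_ne_infty _)
    | coe y => rw [pt_injective (OnePoint.coe_injective h)]

theorem map_toP (f : RatMap K) (hd : 1 ≤ f.degree) (z : OnePoint K) :
    f.map (toP z) = toP ((toRM f).map z) := by
  cases z using OnePoint.rec with
  | infty =>
    have hQ0 : f.Q ≠ 0 := by
      intro h
      have h1 := f.coprime
      rw [h, isCoprime_zero_right] at h1
      have h2 := natDegree_eq_zero_of_isUnit h1
      have h3 : f.degree = 0 := by
        rw [RatMap.degree, h, h2, natDegree_zero]
        rfl
      omega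
    rw [toP_infty, bms_map_infty]
    by_cases h : f.Q.natDegree = f.degree
    · have h1 : f.Q.coeff f.degree ≠ 0 := by
        rw [← h]
        exact leadingCoeff_ne_zero.2 hQ0
      rw [if_neg h1, RM.map_infty (toRM f) h]
      rfl
    · have h1 : f.Q.coeff f.degree = 0 := by
        apply coeff_eq_zero_of_natDegree_lt
        exact lt_of_le_of_ne (le_max_right _ _) h
      rw [if_pos h1, RM.map_infty_pole (toRM f) h]
      rfl
  | coe x =>
    by_cases h : f.Q.eval x = 0
    · rw [toP_coe, map_pt_pole f h, RM.map_pole (toRM f) h]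
      rfl
    · rw [toP_coe, map_pt f h, RM.map_coe (toRM f) h]
      rfl

theorem iterate_toP (f : RatMap K) (hd : 1 ≤ f.degree) (n : ℕ) (z : OnePoint K) :
    f.map^[n] (toP z) = toP ((toRM f).map^[n] z) := by
  induction n generalizing z with
  | zero => rfl
  | succ n ih => rw [Function.iterate_succ_apply, Function.iterate_succ_apply, map_toP f hd, ih]

open Classical in
theorem card_filter_fibM (f : RatMap K) (U : Set (BerkP K)) (b : OnePoint K) :
    Multiset.card (((toRM f).fibM b).filter fun z => toP z ∈ U) = count f U b := by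
  have key : ∀ (g : K[X]) (n : ℕ), Multiset.card
      (((Multiset.map (fun z : K => (z : OnePoint K)) g.roots : Multiset (OnePoint K)) +
      Multiset.replicate n OnePoint.infty).filter fun z => toP z ∈ U) =
      (g.roots.filter fun z => ((pt z : BerkA K) : BerkP K) ∈ U).card +
        if OnePoint.infty ∈ U then n else 0 := by
    intro g n
    rw [Multiset.filter_add, Multiset.card_add, Multiset.filter_map, Multiset.card_map]
    congr 1
    by_cases h : (OnePoint.infty : BerkP K) ∈ U
    · rw [if_pos h, Multiset.filter_eq_self.2, Multiset.card_replicate]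
      intro a ha
      rw [Multiset.eq_of_mem_replicate ha]
      exact h
    · rw [if_neg h, Multiset.filter_eq_nil.2, Multiset.card_zero]
      intro a ha
      rw [Multiset.eq_of_mem_replicate ha]
      exact h
  cases b using OnePoint.rec with
  | infty =>
    rw [RM.fibM_infty', key]
    rfl
  | coe c =>
    rw [RM.fibM_coe', key]
    rfl

variable [IsUltrametricDist K] [IsAlgClosed K]

theorem zpt_eq_iff (c c' : Chart K) : zpt c = zpt c' ↔ SamePt c c' := by
  have h0 : 0 < ‖c.ρ‖ := norm_pos_iff.2 c.hρ
  have h0' : 0 < ‖c'.ρ‖ := norm_pos_iff.2 c'.hρ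
  constructor
  · intro h
    have h1 : gp c.a ‖c.ρ‖ = gp c'.a ‖c'.ρ‖ := by
      unfold zpt at h
      exact OnePoint.coe_injective h
    have h2 : ∀ b, max ‖c.a - b‖ ‖c.ρ‖ = max ‖c'.a - b‖ ‖c'.ρ‖ := by
      intro b
      rw [← del_gp c.a h0 b, ← del_gp c'.a h0' b, h1]
    have h3 := h2 c.a
    have h4 := h2 c'.a
    rw [sub_self, norm_zero, max_eq_right h0.le] at h3
    rw [sub_self, norm_zero, max_eq_right h0'.le] at h4
    have h5 : ‖c.ρ‖ = ‖c'.ρ‖ := by
      apply le_antisymm
      · rw [← h4]; exact le_max_right _ _
      · rw [h3]; exact le_max_right _ _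
    refine ⟨h5, ?_⟩
    rw [h5, ← h4]
    exact le_max_left _ _
  · rintro ⟨h1, h2⟩
    unfold zpt
    rw [← h1, bxGpEqOfLe h0 h2]

theorem zpt_flip (c : Chart K) (b : Bool) : zpt ⟨c.a, c.ρ, c.hρ, b⟩ = zpt c := rfl

end FS31
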