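import Pool.Agent.FIC.Limit
import Pool.Agent.FS31.Defs

/-!
# The wild examples have infinitely many cycles in the sense of `multiCycles`

MODULE FS31-WILD.  Let `F : FlipData f y w n R ρ`, `U = ann y ρ (R 0)`.  For `i ≤ n`,
`f.map^[i] '' U = ann (f.it i y) (R i * (ρ / R 0)) (R i)` (`FlipData.image`), `f.map^[n+1] '' U = U`
(`FlipData.image_period`), so every member of `cycleOf f U` is `A i := f.map^[i] '' U` for some `i ≤ n`.
* `hasHoles`: `ann x s r` with `0 < s < r`, `s = ‖s'‖`, `r = ‖r'‖`, is the complement of the two disjoint rational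
  closed disks `{del · x ≤ s}` and `{∞} ∪ {r ≤ del · x}`.  The radii `R i`, `R i * (ρ / R 0)` are norms of elements of
  `K`: `R i / R 0 = ‖f^i x' - f^i y‖ / ‖x' - y‖` for any `x'` with `0 < ‖x' - y‖ < R 0` (`F.scale`), `F.rval`, `F.ρval`.
* `isIndifferent`: `A i` is a component of the Fatou set: it is connected (`isConnected_ann`) and open
  (`isOpen_ann`), contained in the Fatou set (`f.map^[n+1-i]` maps it to `U`, `F.subset_fatou`,
  `mem_fatou_of_iterate`), and its two boundary points (`closure_ann`) are not in the Fatou set: they are the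
  images under `f.map^[i]` of `gp y (R 0)` and `gp y ρ` (`FlipData.bxMapGp` for `t < R 0`; for `t = R 0` by continuity,
  `continuous_gp`, `continuous_iter`), which are not in the Fatou set (`outer_notMem`, `inner_notMem`), so
  `mem_fatou_of_iterate` applies; then as in `FlipData.component`.  Periodic: `f.map^[n+1] '' A i = A i`; one-to-one:
  `F.oneToOne` for the indices modulo `n + 1`.
* `infinite_multiCycles`: as `infinite_cycles` in `FIC/BZ.lean`.
* `exists_infinite_multiCycles`: as `Sys.infinite` and the final theorem of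
  `Results/MP_448b21_nt/WildCycles.lean` (`exists_sys`).
-/

open Polynomial

noncomputable section

namespace FS31

open Pool.Agent.FIC FS16

universe u

variable {K : Type u} [NontriviallyNormedField K] [IsUltrametricDist K] [IsAlgClosed K]

/-- an annulus with radii in the value group is the complement of two disjoint closed disks -/
theorem hasHoles_ann (x : K) {s r : K} (hs : s ≠ 0) (hr : ‖s‖ < ‖r‖) :
    HasHoles (ann x ‖s‖ ‖r‖) := by
  have hr0 : r ≠ 0 := by
    rintro rfl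
    rw [norm_zero] at hr
    exact absurd hr (not_lt.2 (norm_nonneg s))
  refine ⟨2, le_rfl, ![{ζ | ∃ ξ : BerkA K, ζ = (ξ : BerkP K) ∧ del ξ x ≤ ‖s‖},
    {ζ | ∀ ξ : BerkA K, ζ = (ξ : BerkP K) → ‖r‖ ≤ del ξ x}], ?_, ?_, ?_⟩
  · intro i
    fin_cases i
    · exact ⟨x, s, hs, Or.inl rfl⟩
    · exact ⟨x, r, hr0, Or.inr rfl⟩
  · have key : Disjoint {ζ : BerkP K | ∃ ξ : BerkA K, ζ = (ξ : BerkP K) ∧ del ξ x ≤ ‖s‖}
        {ζ : BerkP K | ∀ ξ : BerkA K, ζ = (ξ : BerkP K) → ‖r‖ ≤ del ξ x} := by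
      rw [Set.disjoint_left]
      rintro ζ ⟨ξ, h1, h2⟩ h3
      have := h3 ξ h1
      linarith
    intro i j hij
    fin_cases i <;> fin_cases j
    · exact absurd rfl hij
    · exact key
    · exact key.symm
    · exact absurd rfl hij
  · ext ζ
    have h1 : ζ ∈ (⋃ i, (![{ζ | ∃ ξ : BerkA K, ζ = (ξ : BerkP K) ∧ del ξ x ≤ ‖s‖},
        {ζ | ∀ ξ : BerkA K, ζ = (ξ : BerkP K) → ‖r‖ ≤ del ξ x}] : Fin 2 → Set (BerkP K)) i) ↔
        (∃ ξ : BerkA K, ζ = (ξ : BerkP K) ∧ del ξ x ≤ ‖s‖) ∨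
        ∀ ξ : BerkA K, ζ = (ξ : BerkP K) → ‖r‖ ≤ del ξ x := by
      rw [Set.mem_iUnion, Fin.exists_fin_two]
      rfl
    rw [Set.mem_compl_iff, h1]
    constructor
    · rintro ⟨ξ, ⟨h2, h3⟩, rfl⟩ (⟨ξ', h4, h5⟩ | h4)
      · have h6 : ξ = ξ' := bxCoeInjective h4
        rw [← h6] at h5
        linarith
      · have := h4 ξ rfl
        linarith
    · intro h
      rw [not_or] at h
      obtain ⟨h2, h3⟩ := h
      push Not at h3
      obtain ⟨ξ, h4, h5⟩ := h3
      refine ⟨ξ, ⟨?_, h5⟩, h4.symm⟩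
      by_contra h6
      exact h2 ⟨ξ, h4, not_lt.1 h6⟩

/-- the image of the outer boundary point -/
theorem map_gp_outer {f : RatMap K} {y w : K} {n : ℕ} {R : ℕ → ℝ} {ρ : ℝ}
    (F : FlipData f y w n R ρ) (i : ℕ) (hi : i ≤ n) :
    f.map^[i] ((gp y (R 0) : BerkA K) : BerkP K) = ((gp (f.it i y) (R i) : BerkA K) : BerkP K) := by
  have hR0 : 0 < R 0 := F.Rpos 0 (Nat.zero_le _)
  have hRi : 0 < R i := F.Rpos i hi
  have hc := continuous_gp (K := K) y (s := 1) (r := 1) one_pos
  have hc' := continuous_gp (K := K) (f.it i y) (s := 1) (r := 1) one_pos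
  have hc0 : Filter.Tendsto (fun t : ℝ => ((gp y t : BerkA K) : BerkP K))
      (nhdsWithin (R 0) (Set.Iio (R 0))) (nhds ((gp y (R 0) : BerkA K) : BerkP K)) :=
    ((hc.continuousAt (Ioi_mem_nhds hR0)).tendsto).mono_left nhdsWithin_le_nhds
  have h1 : Filter.Tendsto (fun t : ℝ => f.map^[i] ((gp y t : BerkA K) : BerkP K))
      (nhdsWithin (R 0) (Set.Iio (R 0)))
      (nhds (f.map^[i] ((gp y (R 0) : BerkA K) : BerkP K))) :=
    ((continuous_iter f i).tendsto _).comp hc0
  have h2 : Filter.Tendsto (fun t : ℝ => ((gp (f.it i y) (R i / R 0 * t) : BerkA K) : BerkP K))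
      (nhdsWithin (R 0) (Set.Iio (R 0))) (nhds ((gp (f.it i y) (R i) : BerkA K) : BerkP K)) := by
    have h3 : Filter.Tendsto (fun t : ℝ => R i / R 0 * t) (nhds (R 0)) (nhds (R i)) := by
      have h4 : ContinuousAt (fun t : ℝ => R i / R 0 * t) (R 0) :=
        continuousAt_const.mul continuousAt_id
      have h5 := h4.tendsto
      rwa [div_mul_cancel₀ _ hR0.ne'] at h5
    exact ((hc'.continuousAt (Ioi_mem_nhds hRi)).tendsto).comp (h3.mono_left nhdsWithin_le_nhds)
  have h6 : (fun t : ℝ => f.map^[i] ((gp y t : BerkA K) : BerkP K)) =ᶠ[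
      nhdsWithin (R 0) (Set.Iio (R 0))]
      fun t : ℝ => ((gp (f.it i y) (R i / R 0 * t) : BerkA K) : BerkP K) := by
    have h7 : Set.Ioo ρ (R 0) ∈ nhdsWithin (R 0) (Set.Iio (R 0)) := Ioo_mem_nhdsLT F.lt
    filter_upwards [h7] with t ht
    exact F.bxMapGp (F.ρpos.trans ht.1) ht.2 i hi
  exact tendsto_nhds_unique (h1.congr' h6) h2

/-- the period on all the images -/
theorem image_mod {f : RatMap K} {y w : K} {n : ℕ} {R : ℕ → ℝ} {ρ : ℝ}
    (F : FlipData f y w n R ρ) (m : ℕ) :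
    f.map^[m] '' ann y ρ (R 0) = f.map^[m % (n + 1)] '' ann y ρ (R 0) := by
  have hq : ∀ q : ℕ, f.map^[(n + 1) * q] '' ann y ρ (R 0) = ann y ρ (R 0) := by
    intro q
    induction q with
    | zero => simp
    | succ q ih => rw [Nat.mul_succ, Function.iterate_add, Set.image_comp, F.image_period, ih]
  conv_lhs => rw [← Nat.mod_add_div m (n + 1), Function.iterate_add, Set.image_comp, hq]

/-- the images of the annulus are in the Fatou set -/
theorem image_subset_fatou {f : RatMap K} (hd : 1 ≤ f.degree) {y w : K} {n : ℕ} {R : ℕ → ℝ}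
    {ρ : ℝ} (F : FlipData f y w n R ρ) (i : ℕ) (hi : i ≤ n) :
    f.map^[i] '' ann y ρ (R 0) ⊆ fatou f := by
  intro ξ hξ
  apply mem_fatou_of_iterate hd (n + 1 - i)
  apply F.subset_fatou
  rw [← F.image_period]
  have h1 : n + 1 = (n + 1 - i) + i := by omega
  rw [h1, Function.iterate_add, Set.image_comp]
  have h2 : (n + 1 - i) + i - i = n + 1 - i := by omega
  rw [h2]
  exact ⟨ξ, hξ, rfl⟩

/-- all the images are Fatou components -/
theorem image_component {f : RatMap K} (hd : 1 ≤ f.degree) {y w : K} {n : ℕ} {R : ℕ → ℝ}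
    {ρ : ℝ} (F : FlipData f y w n R ρ) (i : ℕ) (hi : i ≤ n) :
    IsFatouComponent f (f.map^[i] '' ann y ρ (R 0)) := by
  have hR0 : 0 < R 0 := F.Rpos 0 (Nat.zero_le _)
  have hRi : 0 < R i := F.Rpos i hi
  have hsub := image_subset_fatou hd F i hi
  have hin : ((gp (f.it i y) (R i * (ρ / R 0)) : BerkA K) : BerkP K) ∉ fatou f := by
    intro h
    rw [show R i * (ρ / R 0) = R i / R 0 * ρ by ring, ← F.bxMapGp F.ρpos F.lt i hi] at h
    exact F.inner_notMem hd (mem_fatou_of_iterate hd _ _ h)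
  have hout : ((gp (f.it i y) (R i) : BerkA K) : BerkP K) ∉ fatou f := by
    intro h
    rw [← map_gp_outer F i hi] at h
    exact F.outer_notMem hd (mem_fatou_of_iterate hd _ _ h)
  have hs0 : 0 < R i * (ρ / R 0) := mul_pos hRi (div_pos F.ρpos hR0)
  have hlt : R i * (ρ / R 0) < R i := by
    have : ρ / R 0 < 1 := (div_lt_one hR0).2 F.lt
    calc R i * (ρ / R 0) < R i * 1 := mul_lt_mul_of_pos_left this hRi
      _ = R i := mul_one _
  rw [F.image i hi] at hsub ⊢
  have hconn := isConnected_ann (f.it i y) hs0 hlt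
  obtain ⟨ζ, hζ⟩ := hconn.nonempty
  refine ⟨ζ, hsub hζ, Set.Subset.antisymm ?_ ?_⟩
  · exact hconn.isPreconnected.subset_connectedComponentIn hζ hsub
  · have hpre : IsPreconnected (connectedComponentIn (fatou f) ζ) :=
      isPreconnected_connectedComponentIn
    refine hpre.subset_of_closure_inter_subset (isOpen_ann _ _ _)
      ⟨ζ, mem_connectedComponentIn (hsub hζ), hζ⟩ ?_
    rintro ξ ⟨hξ, hξC⟩
    have hξf : ξ ∈ fatou f := connectedComponentIn_subset _ _ hξC
    rcases closure_ann (f.it i y) hs0 hlt hξ with h | h | h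
    · exact h
    · exact absurd (h ▸ hξf) hin
    · exact absurd (h ▸ hξf) hout

/-- all the images have two holes -/
theorem image_hasHoles {f : RatMap K} {y w : K} {n : ℕ} {R : ℕ → ℝ} {ρ : ℝ}
    (F : FlipData f y w n R ρ) (i : ℕ) (hi : i ≤ n) :
    HasHoles (f.map^[i] '' ann y ρ (R 0)) := by
  have hR0 : 0 < R 0 := F.Rpos 0 (Nat.zero_le _)
  have hRi : 0 < R i := F.Rpos i hi
  have hρ := F.ρpos
  obtain ⟨s, hs⟩ := F.ρval
  obtain ⟨r, hr⟩ := F.rval
  have hs0 : s ≠ 0 := by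
    rintro rfl
    rw [norm_zero] at hs
    exact hρ.ne hs
  have h1 := F.scale y (y + s) (by rw [sub_self, norm_zero]; exact hR0.le)
    (by rw [add_sub_cancel_left, hs]; exact F.lt) i hi
  rw [add_sub_cancel_left, hs] at h1
  obtain ⟨e, he⟩ : ∃ e : K, ‖e‖ = R i * (ρ / R 0) :=
    ⟨f.it i (y + s) - f.it i y, by rw [h1]; ring⟩
  have hpos : 0 < R i * (ρ / R 0) := mul_pos hRi (div_pos hρ hR0)
  have he0 : e ≠ 0 := by
    rintro rfl
    rw [norm_zero] at he
    exact hpos.ne he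
  have hE : ‖e * (r / s)‖ = R i := by
    rw [norm_mul, norm_div, he, hr, hs]
    field_simp
  have hlt : ‖e‖ < ‖e * (r / s)‖ := by
    rw [hE, he]
    have : ρ / R 0 < 1 := (div_lt_one hR0).2 F.lt
    calc R i * (ρ / R 0) < R i * 1 := mul_lt_mul_of_pos_left this hRi
      _ = R i := mul_one _
  have h2 := hasHoles_ann (f.it i y) he0 hlt
  rw [hE, he] at h2
  rw [F.image i hi]
  exact h2

/-- all the images are indifferent components -/
theorem image_indifferent {f : RatMap K} (hd : 1 ≤ f.degree) {y w : K} {n : ℕ} {R : ℕ → ℝ}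
    {ρ : ℝ} (F : FlipData f y w n R ρ) (i : ℕ) (hi : i ≤ n) :
    IsIndifferent f (f.map^[i] '' ann y ρ (R 0)) := by
  refine ⟨image_component hd F i hi, n + 1, Nat.le_add_left 1 n, ?_, ?_⟩
  · rw [← Set.image_comp, ← Function.iterate_add, Nat.add_comm (n + 1) i, Function.iterate_add,
      Set.image_comp, F.image_period]
  · intro j _
    rw [← Set.image_comp, ← Function.iterate_add, image_mod F (j + i)]
    exact F.oneToOne _ (Nat.mod_lt _ (Nat.succ_pos n))

theorem mem_multiCycles {f : RatMap K} (hd : 1 ≤ f.degree) {y w : K} {n : ℕ} {R : ℕ → ℝ} {ρ : ℝ}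
    (F : FlipData f y w n R ρ) : cycleOf f (ann y ρ (R 0)) ∈ multiCycles f := by
  refine ⟨⟨_, rfl⟩, ?_⟩
  rintro _ ⟨m, rfl⟩
  change IsIndifferent f (f.map^[m] '' ann y ρ (R 0)) ∧ HasHoles (f.map^[m] '' ann y ρ (R 0))
  rw [image_mod F m]
  have h : m % (n + 1) ≤ n := Nat.lt_succ_iff.1 (Nat.mod_lt _ (Nat.succ_pos n))
  exact ⟨image_indifferent hd F _ h, image_hasHoles F _ h⟩

theorem infinite_multiCycles {f : RatMap K} (hd : 1 ≤ f.degree) {y w : K} {n : ℕ → ℕ}
    {R : ℕ → ℕ → ℝ} {ρ : ℕ → ℝ} (F : ∀ k, FlipData f y w (n k) (R k) (ρ k))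
    (hR : StrictAnti fun k => R k 0) : (multiCycles f).Infinite := by
  intro hfin
  have hsub : Set.range (fun k => cycleOf f (ann y (ρ k) (R k 0))) ⊆ multiCycles f := by
    rintro _ ⟨k, rfl⟩
    exact mem_multiCycles hd (F k)
  have hfin3 : (⋃₀ Set.range (fun k => cycleOf f (ann y (ρ k) (R k 0)))).Finite := by
    refine (hfin.subset hsub).sUnion ?_
    rintro _ ⟨k, rfl⟩
    exact (F k).finite_cycle
  have hinj : Function.Injective (fun k => ann y (ρ k) (R k 0)) := by
    intro k k' h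
    have := (ann_injective (F k).ρpos (F k).lt (F k').ρpos (F k').lt h).2
    exact hR.injective this
  refine Set.infinite_range_of_injective hinj (hfin3.subset ?_)
  rintro _ ⟨k, rfl⟩
  exact ⟨_, ⟨k, rfl⟩, 0, by simp⟩

end FS31
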