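import Pool.Agent.FS16.BFinal
import Pool.Agent.FS31.Wild
import Pool.Agent.FIC.MkS

/-!
# Both halves
-/

open Polynomial

noncomputable section

namespace FS31

open Pool.Agent.FIC FS16

universe u

/-- residue characteristic `p`: infinitely many cycles -/
theorem wild {p : ℕ} (hp : p.Prime) {K : Type u} [NontriviallyNormedField K] [IsUltrametricDist K]
    [CompleteSpace K] [IsAlgClosed K] (hK : ‖(p : K)‖ < 1) {d : ℕ} (hd : 70 * p + 2 ≤ d) :
    ∃ f : RatMap K, f.degree = d ∧ (multiCycles f).Infinite := by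
  obtain ⟨S, -, hS⟩ := exists_sys hp hK hd
  obtain ⟨b, hb⟩ := S.exists_limit
  refine ⟨S.F.shift b, (S.shift_degree b).trans hS, ?_⟩
  have hd : 1 ≤ (S.F.shift b).degree := by
    rw [S.shift_degree]
    exact S.one_le_degree
  refine infinite_multiCycles hd (fun k => (S.seq k).flipData (hb k)
    ((S.seq_spec k).2.2 b (hb (k + 1))).2) ?_
  refine strictAnti_nat_of_succ_lt fun k => ?_
  show S.rad ((S.seq (k + 1)).E₀ + S.gains ((S.seq (k + 1)).L.take 0)) <
    S.rad ((S.seq k).E₀ + S.gains ((S.seq k).L.take 0))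
  rw [S.rad_lt, List.take_zero, List.take_zero]
  have := (S.seq_spec k).2.1
  linarith

/-- the residue characteristic is zero or a prime -/
theorem residue_char (K : Type u) [NontriviallyNormedField K] [IsUltrametricDist K] :
    (∀ n : ℕ, n ≠ 0 → ‖(n : K)‖ = 1) ∨ ∃ p : ℕ, p.Prime ∧ ‖(p : K)‖ < 1 := by
  by_contra hcon
  push Not at hcon
  obtain ⟨⟨n, hn, hn1⟩, hcon⟩ := hcon
  have hle : ∀ n : ℕ, ‖(n : K)‖ ≤ 1 := IsUltrametricDist.norm_natCast_le_one K
  have hex : ∃ n : ℕ, n ≠ 0 ∧ ‖(n : K)‖ < 1 := ⟨n, hn, lt_of_le_of_ne (hle n) hn1⟩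
  classical
  obtain ⟨hp0, hp1⟩ := Nat.find_spec hex
  set p := Nat.find hex with hpdef
  have hprime : p.Prime := by
    rw [Nat.prime_iff_not_exists_mul_eq]
    constructor
    · have h : p ≠ 1 := by
        intro h
        rw [h, Nat.cast_one, norm_one] at hp1
        exact lt_irrefl _ hp1
      omega
    · rintro ⟨m, n, hm, hn, hmn⟩
      have hm0 : m ≠ 0 := by
        rintro rfl
        rw [zero_mul] at hmn
        exact hp0 hmn.symm
      have hn0 : n ≠ 0 := by
        rintro rfl
        rw [mul_zero] at hmn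
        exact hp0 hmn.symm
      have h3 : ‖(m : K)‖ = 1 := by
        by_contra h
        exact Nat.find_min hex hm ⟨hm0, lt_of_le_of_ne (hle m) h⟩
      have h4 : ‖(n : K)‖ = 1 := by
        by_contra h
        exact Nat.find_min hex hn ⟨hn0, lt_of_le_of_ne (hle n) h⟩
      rw [← hmn, Nat.cast_mul, norm_mul, h3, h4, mul_one] at hp1
      exact lt_irrefl _ hp1
  exact absurd hp1 (not_lt.2 (hcon p hprime))

end FS31
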