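import Pool.Agent.FS31.Basic

/-!
# Rational closed disks in the Berkovich projective line

MODULE FS31-DISK.  `exists_chart_of_disk`: a rational closed disk `V` has a chart `c` at its boundary
point and a direction `v` at `c` such that a point of type I is in `V` iff its direction at `c` is not
`v`; `V` is closed, the complement of `V` has exactly one further point in its closure, the point `zpt c`.

Proof.  The two forms of `IsRatClosedDisk` with parameters `a`, `s` (write `r = ‖s‖ > 0`), always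
`c = ⟨a, s, _, false⟩`, so `c.to z = (z - a)/s` and `zpt c = gp a r` (`del_gp`: `del (gp a r) b = max ‖a - b‖ r`).
(1) `V = {del · a ≤ r}` (in the affine line), `v = ∞`: `dirR R ((z - a)/s) ≠ ∞` iff `‖z - a‖ ≤ r`
(`del_pt`).  `V` is compact (`isCompact_cdisc`), hence closed in `BerkP K` (T2).  `V \ {gp a r}` is open: it is the
union of the open disks `{del · b < r}`, `‖b - a‖ ≤ r`: if `del ζ a ≤ r` and `ζ ≠ gp a r`, then by
`BerkA.ext_del` there is `b` with `del ζ b ≠ max ‖a - b‖ r`; for `‖a - b‖ > r` we have `del ζ b = ‖a - b‖`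
(`del_eq_of_lt`), a contradiction; so `‖a - b‖ ≤ r`, `del ζ b ≤ max (del ζ a) ‖a - b‖ ≤ r` (`del_le`), so
`del ζ b < r`.  And `gp a r` is in the closure of `Vᶜ`: `gp a t → gp a r` for `t → r`, `t > r`
(`continuous_gp`), `gp a t ∉ V`.
(2) `V = {∞} ∪ {r ≤ del · a}`, `v = 0`: `dirR R ((z - a)/s) ≠ 0` iff `‖z - a‖ ≥ r` or `z = ∞`
(`R.zero_iff`).  `Vᶜ = {del · a < r}` is open (`isOpen_odisc`, `OnePoint.isOpen_image_coe`); its closure is
`Vᶜ ∪ {gp a r}`: if `ζ ∈ V`, `ζ ≠ gp a r`, then `ζ` is `∞` or `del ζ a > r` (open conditions), or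
`del ζ a = r` and by the argument above there is `b`, `‖a - b‖ ≤ r`, with `del ζ b < r`, and then
`{del · b < r}` is a neighbourhood of `ζ` disjoint from `{del · a < r}` (`del_eq_of_lt`: otherwise
`‖a - b‖ < r` and `del ζ a < r`).  And `gp a t → gp a r` for `t < r`.

`dir_const`: a connected set which does not contain `zpt c` meets only one direction at `c`.
By `exists_theta` (`SamePt`, `zpt_flip`) we may assume that `c = ⟨a, ρ, _, false⟩` is not inverted.  For
every direction `v` the set `D v` = complement of the rational closed disk `V v`, with `V ∞ = {del · a ≤ ‖ρ‖}`,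
`V v = {∞} ∪ {‖ρ‖ ≤ del · (a + ρ lift v)}`, is open and its type I points are those of direction `v`; all
`V v` have the boundary point `zpt c`.  As `W` does not contain `zpt c`, `W ⊆ D v ∪ (closure (D v))ᶜ`,
two disjoint open sets, so `W ⊆ D v` if `toP z ∈ W ∩ D v` (`IsPreconnected.subset_left_of_subset_union`).
-/

open Polynomial

noncomputable section

namespace FS31

open Pool.Agent.FIC FS16

universe u

namespace DK

variable {K : Type u} [NontriviallyNormedField K]

/-- closed disks in the affine line -/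
def VA (a : K) (r : ℝ) : Set (BerkP K) := {ζ | ∃ ξ : BerkA K, ζ = (ξ : BerkP K) ∧ del ξ a ≤ r}

/-- closed disks around infinity -/
def VB (a : K) (r : ℝ) : Set (BerkP K) := {ζ | ∀ ξ : BerkA K, ζ = (ξ : BerkP K) → r ≤ del ξ a}

theorem coe_mem_VA {a : K} {r : ℝ} {ξ : BerkA K} : (ξ : BerkP K) ∈ VA a r ↔ del ξ a ≤ r := by
  constructor
  · rintro ⟨ξ', h1, h2⟩
    rw [OnePoint.coe_injective h1]
    exact h2
  · intro h
    exact ⟨ξ, rfl, h⟩

theorem infty_notMem_VA {a : K} {r : ℝ} : (OnePoint.infty : BerkP K) ∉ VA a r := by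
  rintro ⟨ξ', h1, -⟩
  exact OnePoint.infty_ne_coe _ h1

theorem coe_mem_VB {a : K} {r : ℝ} {ξ : BerkA K} : (ξ : BerkP K) ∈ VB a r ↔ r ≤ del ξ a := by
  constructor
  · intro h
    exact h ξ rfl
  · intro h ξ' h1
    rw [← OnePoint.coe_injective h1]
    exact h

theorem infty_mem_VB {a : K} {r : ℝ} : (OnePoint.infty : BerkP K) ∈ VB a r := by
  intro ξ h
  exact absurd h (OnePoint.infty_ne_coe _)

theorem VA_eq (a : K) (r : ℝ) : VA a r = (fun ζ : BerkA K => (ζ : BerkP K)) '' cdisc a r := by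
  ext ζ
  constructor
  · rintro ⟨ξ, rfl, h⟩
    exact ⟨ξ, h, rfl⟩
  · rintro ⟨ξ, h, rfl⟩
    exact ⟨ξ, rfl, h⟩

theorem VB_compl (a : K) (r : ℝ) :
    (VB a r)ᶜ = (fun ζ : BerkA K => (ζ : BerkP K)) '' odisc a r := by
  ext ζ
  cases ζ using OnePoint.rec with
  | infty =>
    constructor
    · intro h
      exact absurd infty_mem_VB h
    · rintro ⟨ξ, -, h⟩
      exact absurd h (OnePoint.coe_ne_infty _)
  | coe ζ =>
    rw [Set.mem_compl_iff, coe_mem_VB, not_le]
    constructor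
    · intro h
      exact ⟨ζ, h, rfl⟩
    · rintro ⟨ξ, h, h1⟩
      have : ξ = ζ := OnePoint.coe_injective h1
      rw [← this]
      exact h

variable [IsUltrametricDist K] [IsAlgClosed K]

theorem isClosed_VA (a : K) (r : ℝ) : IsClosed (VA a r) := by
  rw [VA_eq]
  exact ((isCompact_cdisc a r).image OnePoint.continuous_coe).isClosed

theorem isClosed_VB (a : K) (r : ℝ) : IsClosed (VB a r) := by
  rw [← isOpen_compl_iff, VB_compl, OnePoint.isOpen_image_coe]
  exact isOpen_odisc a r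

/-- a point of a closed disk which is not its boundary point is in an open disk of the same radius -/
theorem exists_lt {ζ : BerkA K} {a : K} {r : ℝ} (hr : 0 < r) (h : del ζ a ≤ r) (hne : ζ ≠ gp a r) :
    ∃ b, ‖a - b‖ ≤ r ∧ del ζ b < r := by
  obtain ⟨b, hb⟩ : ∃ b, del ζ b ≠ max ‖a - b‖ r := by
    by_contra hcon
    push Not at hcon
    apply hne
    exact BerkA.ext_del fun b => by rw [hcon b, del_gp a hr b]
  have hab : ‖a - b‖ ≤ r := by
    by_contra hcon
    push Not at hcon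
    apply hb
    rw [del_eq_of_lt (lt_of_le_of_lt h hcon), max_eq_left hcon.le]
  refine ⟨b, hab, ?_⟩
  rw [max_eq_right hab] at hb
  exact lt_of_le_of_ne ((del_le ζ a b).trans (max_le h hab)) hb

theorem del_gp_self (a : K) {r : ℝ} (hr : 0 < r) : del (gp a r) a = r := by
  rw [del_gp a hr a, sub_self, norm_zero, max_eq_right hr.le]

/-- the boundary point is a limit of the points `gp a t` -/
theorem gp_mem_closure {a : K} {r : ℝ} (hr : 0 < r) {S : Set (BerkP K)} {T : Set ℝ}
    (hT : r ∈ closure (T ∩ Set.Ioi 0))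
    (hS : ∀ t ∈ T ∩ Set.Ioi 0, ((gp a t : BerkA K) : BerkP K) ∈ S) :
    ((gp a r : BerkA K) : BerkP K) ∈ closure S := by
  have hc : ContinuousOn (fun t : ℝ => ((gp a t : BerkA K) : BerkP K)) (Set.Ioi 0) :=
    continuous_gp (s := r) (r := r) a hr
  have h1 : ContinuousWithinAt (fun t : ℝ => ((gp a t : BerkA K) : BerkP K)) (T ∩ Set.Ioi 0) r :=
    (hc r hr).mono Set.inter_subset_right
  exact h1.mem_closure hT hS

theorem closure_VA (a : K) {r : ℝ} (hr : 0 < r) :
    closure (VA a r)ᶜ = (VA a r)ᶜ ∪ {((gp a r : BerkA K) : BerkP K)} := by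
  apply Set.Subset.antisymm
  · intro ζ hζ
    by_contra hcon
    rw [Set.mem_union, not_or, Set.mem_compl_iff, not_not, Set.mem_singleton_iff] at hcon
    obtain ⟨⟨ξ, rfl, h1⟩, h2⟩ := hcon
    have h3 : ξ ≠ gp a r := fun h => h2 (by rw [h])
    obtain ⟨b, hb1, hb2⟩ := exists_lt hr h1 h3
    have ho : IsOpen ((fun ζ : BerkA K => (ζ : BerkP K)) '' odisc b r) := by
      rw [OnePoint.isOpen_image_coe]
      exact isOpen_odisc b r
    obtain ⟨w, ⟨η, hη, rfl⟩, hw⟩ := mem_closure_iff.1 hζ _ ho ⟨ξ, hb2, rfl⟩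
    apply hw
    rw [coe_mem_VA]
    refine (del_le η b a).trans (max_le (le_of_lt hη) ?_)
    rw [norm_sub_rev]
    exact hb1
  · apply Set.union_subset subset_closure
    rw [Set.singleton_subset_iff]
    apply gp_mem_closure (T := Set.Ioi r) hr
    · have : Set.Ioi r ∩ Set.Ioi 0 = Set.Ioi r := by
        rw [Set.inter_eq_left]
        intro t ht
        exact hr.trans ht
      rw [this, closure_Ioi]
      exact Set.self_mem_Ici
    · rintro t ⟨ht1, ht2⟩
      rw [Set.mem_compl_iff, coe_mem_VA, del_gp_self a ht2, not_le]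
      exact ht1

theorem closure_VB (a : K) {r : ℝ} (hr : 0 < r) :
    closure (VB a r)ᶜ = (VB a r)ᶜ ∪ {((gp a r : BerkA K) : BerkP K)} := by
  apply Set.Subset.antisymm
  · intro ζ hζ
    by_contra hcon
    rw [Set.mem_union, not_or, Set.mem_compl_iff, not_not, Set.mem_singleton_iff] at hcon
    obtain ⟨h1, h2⟩ := hcon
    have h5 : ζ ∈ VA a r := by
      have h4 : (VB a r)ᶜ ⊆ VA a r := by
        rw [VB_compl]
        rintro _ ⟨ξ, hξ, rfl⟩
        exact coe_mem_VA.2 (le_of_lt hξ)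
      exact closure_minimal h4 (isClosed_VA a r) hζ
    obtain ⟨ξ, rfl, h6⟩ := h5
    rw [coe_mem_VB] at h1
    have h3 : ξ ≠ gp a r := fun h => h2 (by rw [h])
    obtain ⟨b, hb1, hb2⟩ := exists_lt hr h6 h3
    have ho : IsOpen ((fun ζ : BerkA K => (ζ : BerkP K)) '' odisc b r) := by
      rw [OnePoint.isOpen_image_coe]
      exact isOpen_odisc b r
    obtain ⟨w, ⟨η, hη, rfl⟩, hw⟩ := mem_closure_iff.1 hζ _ ho ⟨ξ, hb2, rfl⟩
    rw [Set.mem_compl_iff, coe_mem_VB, not_le] at hw
    have h7 : ‖b - a‖ < r := by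
      refine (norm_sub_le_del η b a).trans_lt (max_lt hη hw)
    have h8 := (del_le ξ b a).trans_lt (max_lt hb2 h7)
    exact absurd h1 (not_le.2 h8)
  · apply Set.union_subset subset_closure
    rw [Set.singleton_subset_iff]
    apply gp_mem_closure (T := Set.Iio r) hr
    · have h1 : Set.Iio r ∩ Set.Ioi 0 = Set.Ioo 0 r := by
        rw [Set.inter_comm, Set.Ioi_inter_Iio]
      rw [h1, closure_Ioo hr.ne]
      exact Set.right_mem_Icc.2 hr.le
    · rintro t ⟨ht1, ht2⟩
      rw [Set.mem_compl_iff, coe_mem_VB, del_gp_self a ht2, not_le]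
      exact ht1

end DK

variable {K k : Type u} [NontriviallyNormedField K] [IsUltrametricDist K] [IsAlgClosed K] [Field k]

namespace DK

/-- the direction at infinity -/
theorem dir_VA (R : Residue K k) (c : Chart K) (hc : c.inv = false) :
    IsClosed (VA c.a ‖c.ρ‖) ∧ zpt c ∈ VA c.a ‖c.ρ‖ ∧
      closure (VA c.a ‖c.ρ‖)ᶜ = (VA c.a ‖c.ρ‖)ᶜ ∪ {zpt c} ∧
      ∀ z, toP z ∈ VA c.a ‖c.ρ‖ ↔ dirR R (c.to z) ≠ OnePoint.infty := by
  have h0 : 0 < ‖c.ρ‖ := norm_pos_iff.2 c.hρ
  refine ⟨isClosed_VA _ _, ?_, closure_VA _ h0, ?_⟩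
  · unfold zpt
    rw [coe_mem_VA, del_gp_self _ h0]
  · intro z
    cases z using OnePoint.rec with
    | infty =>
      rw [toP_infty, c.to_infty_false hc, dirR_infty]
      constructor
      · intro h
        exact absurd h infty_notMem_VA
      · intro h
        exact absurd rfl h
    | coe x =>
      rw [toP_coe, c.to_coe_false hc, coe_mem_VA, del_pt]
      by_cases h : ‖(x - c.a) / c.ρ‖ ≤ 1
      · rw [dirR_coe R h]
        rw [norm_div, div_le_one h0] at h
        exact ⟨fun _ => OnePoint.coe_ne_infty _, fun _ => h⟩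
      · rw [dirR_coe_of_lt R (not_le.1 h)]
        rw [norm_div, div_le_one h0] at h
        exact ⟨fun h' => absurd h' h, fun h' => absurd rfl h'⟩

/-- the finite directions -/
theorem dir_VB (R : Residue K k) (c : Chart K) (hc : c.inv = false) {b : K}
    (hb : ‖(b - c.a) / c.ρ‖ ≤ 1) :
    IsClosed (VB b ‖c.ρ‖) ∧ zpt c ∈ VB b ‖c.ρ‖ ∧
      closure (VB b ‖c.ρ‖)ᶜ = (VB b ‖c.ρ‖)ᶜ ∪ {zpt c} ∧
      ∀ z, toP z ∈ VB b ‖c.ρ‖ ↔
        dirR R (c.to z) ≠ ((R.red ((b - c.a) / c.ρ) : k) : OnePoint k) := by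
  have h0 : 0 < ‖c.ρ‖ := norm_pos_iff.2 c.hρ
  have hz : zpt c = ((gp b ‖c.ρ‖ : BerkA K) : BerkP K) := by
    unfold zpt
    rw [bxGpEqOfLe h0 (a := c.a) (b := b)]
    rw [norm_div, div_le_one h0] at hb
    rw [norm_sub_rev]
    exact hb
  rw [hz]
  refine ⟨isClosed_VB _ _, ?_, closure_VB _ h0, ?_⟩
  · rw [coe_mem_VB, del_gp_self _ h0]
  · intro z
    cases z using OnePoint.rec with
    | infty =>
      rw [toP_infty, c.to_infty_false hc, dirR_infty]
      exact ⟨fun _ => OnePoint.infty_ne_coe _, fun _ => infty_mem_VB⟩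
    | coe x =>
      rw [toP_coe, c.to_coe_false hc, coe_mem_VB, del_pt]
      have e1 : (x - b) / c.ρ = (x - c.a) / c.ρ - (b - c.a) / c.ρ := by ring
      have e2 : ‖c.ρ‖ ≤ ‖x - b‖ ↔ 1 ≤ ‖(x - c.a) / c.ρ - (b - c.a) / c.ρ‖ := by
        rw [← e1, norm_div, one_le_div h0]
      rw [e2]
      by_cases h : ‖(x - c.a) / c.ρ‖ ≤ 1
      · rw [dirR_coe R h]
        have h1 := R.eq_iff h hb
        rw [← not_lt, ← h1]
        constructor
        · intro h2 h3
          exact h2 (OnePoint.coe_injective h3)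
        · intro h2 h3
          exact h2 (by rw [h3])
      · rw [dirR_coe_of_lt R (not_le.1 h)]
        refine ⟨fun _ => OnePoint.infty_ne_coe _, fun _ => ?_⟩
        by_contra hcon
        rw [not_le] at hcon
        apply h
        have e3 : (x - c.a) / c.ρ = ((x - c.a) / c.ρ - (b - c.a) / c.ρ) + (b - c.a) / c.ρ := by ring
        rw [e3]
        exact (IsUltrametricDist.norm_add_le_max _ _).trans (max_le hcon.le hb)

/-- all directions -/
theorem exists_dir (R : Residue K k) (c : Chart K) (hc : c.inv = false) (v : OnePoint k) :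
    ∃ V : Set (BerkP K), IsClosed V ∧ zpt c ∈ V ∧ closure Vᶜ = Vᶜ ∪ {zpt c} ∧
      ∀ z, toP z ∈ V ↔ dirR R (c.to z) ≠ v := by
  cases v using OnePoint.rec with
  | infty => exact ⟨_, dir_VA R c hc⟩
  | coe v =>
    have e : (c.a + c.ρ * R.lift v - c.a) / c.ρ = R.lift v := by
      rw [add_sub_cancel_left, mul_div_cancel_left₀ _ c.hρ]
    have h := dir_VB R c hc (b := c.a + c.ρ * R.lift v) (by rw [e]; exact R.norm_lift v)
    rw [e, R.red_lift] at h
    exact ⟨_, h⟩

end DK

theorem exists_chart_of_disk (R : Residue K k) {V : Set (BerkP K)} (hV : IsRatClosedDisk V) :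
    ∃ (c : Chart K) (v : OnePoint k), IsClosed V ∧ zpt c ∈ V ∧ closure Vᶜ = Vᶜ ∪ {zpt c} ∧
      ∀ z, toP z ∈ V ↔ dirR R (c.to z) ≠ v := by
  obtain ⟨a, s, hs, h | h⟩ := hV
  · have h' : V = DK.VA a ‖s‖ := h
    rw [h']
    exact ⟨⟨a, s, hs, false⟩, OnePoint.infty, DK.dir_VA R ⟨a, s, hs, false⟩ rfl⟩
  · have h' : V = DK.VB a ‖s‖ := h
    rw [h']
    exact ⟨⟨a, s, hs, false⟩, _, DK.dir_VB R ⟨a, s, hs, false⟩ rfl (b := a) (by simp)⟩

theorem dir_const (R : Residue K k) {W : Set (BerkP K)} (hW : IsPreconnected W) {c : Chart K}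
    (hc : zpt c ∉ W) {z z' : OnePoint K} (hz : toP z ∈ W) (hz' : toP z' ∈ W) :
    dirR R (c.to z) = dirR R (c.to z') := by
  obtain ⟨θ, hθ⟩ := exists_theta R (c := ⟨c.a, c.ρ, c.hρ, false⟩) (c' := c)
    ⟨rfl, by simp⟩
  rw [hθ z, hθ z']
  congr 1
  obtain ⟨V, h1, h2, h3, h4⟩ := DK.exists_dir R ⟨c.a, c.ρ, c.hρ, false⟩ rfl
    (dirR R (Chart.to ⟨c.a, c.ρ, c.hρ, false⟩ z))
  rw [zpt_flip] at h3
  have hzV : toP z ∈ Vᶜ := fun h => (h4 z).1 h rfl
  have hsub : W ⊆ Vᶜ := by
    apply hW.subset_left_of_subset_union (v := (closure Vᶜ)ᶜ) h1.isOpen_compl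
      isClosed_closure.isOpen_compl
    · rw [Set.disjoint_compl_right_iff_subset]
      exact subset_closure
    · intro w hw
      by_cases hwV : w ∈ V
      · right
        rw [h3]
        rintro (h | h)
        · exact h hwV
        · rw [Set.mem_singleton_iff] at h
          exact hc (h ▸ hw)
      · exact Or.inl hwV
    · exact ⟨_, hz, hzV⟩
  have h5 := hsub hz'
  by_contra hne
  exact h5 ((h4 z').2 (Ne.symm hne))

/-- the directions of the points of type I outside of a rational closed disk, in an arbitrary chart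
at its boundary point -/
theorem disk_iff (R : Residue K k) {V : Set (BerkP K)} (hV : IsRatClosedDisk V) {c : Chart K}
    (hc : zpt c ∈ V) (hc' : zpt c ∈ closure Vᶜ) {z₀ : OnePoint K} (hz₀ : toP z₀ ∉ V) (z : OnePoint K) :
    toP z ∈ V ↔ dirR R (c.to z) ≠ dirR R (c.to z₀) := by
  obtain ⟨c₁, v, h1, h2, h3, h4⟩ := exists_chart_of_disk R hV
  have h5 : zpt c = zpt c₁ := by
    rw [h3] at hc'
    rcases hc' with h | h
    · exact absurd hc h
    · exact h
  obtain ⟨θ, hθ⟩ := exists_theta R ((zpt_eq_iff c c₁).1 h5)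
  have h6 : dirR R (c₁.to z₀) = v := by
    by_contra h
    exact hz₀ ((h4 z₀).2 h)
  rw [h4 z, ← h6, hθ, hθ]
  exact θ.injective.ne_iff

end FS31
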