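import Mathlib

/-!
# Finite orbits of bad points

MODULE FS31-PER.  Pure combinatorics.  The map `Φ (ξ, u) = (s ξ, F ξ u)` is a bijection of `Ξ × X` (as a set of
pairs).  If the statement `hno` holds then every point `(ξ, u)` with `u ∈ Bad ξ` is periodic for `Φ`: let `w` be its
orbit; there are `a ≠ b` with `s^[a] ξ = s^[b] ξ`, `w a = w b`, so `Φ^[a] = Φ^[b]` at `(ξ, u)`, and `Φ` is injective.
Let `Per ξ` be the set of the `u` such that `(ξ, u)` is in the orbit of a bad point: the orbits of the finitely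
many bad points are finite and `Φ`-invariant in both directions (periodic orbits of a bijection).
-/

noncomputable section

namespace FS31

theorem exists_per {Ξ X : Type*} [Fintype Ξ] (s : Equiv.Perm Ξ) (F : Ξ → X → X)
    (hF : ∀ ξ, Function.Bijective (F ξ)) (Bad : Ξ → Set X) (hBad : ∀ ξ, (Bad ξ).Finite)
    (hno : ¬ ∃ (ξ : Ξ) (w : ℕ → X), w 0 ∈ Bad ξ ∧ (∀ l, F (s^[l] ξ) (w l) = w (l + 1)) ∧
      ∀ a b, s^[a] ξ = s^[b] ξ → w a = w b → a = b) :
    ∃ Per : Ξ → Set X, (∀ ξ, (Per ξ).Finite) ∧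
      (∀ ξ u, u ∉ Per ξ → u ∉ Bad ξ ∧ F ξ u ∉ Per (s ξ)) ∧ ∀ ξ, ∀ u ∈ Per ξ, F ξ u ∈ Per (s ξ) := by
  set Φ : Ξ × X → Ξ × X := fun p => (s p.1, F p.1 p.2) with hΦ
  have hinj : Function.Injective Φ := by
    rintro ⟨a, u⟩ ⟨b, v⟩ h
    simp only [hΦ, Prod.mk.injEq] at h
    obtain ⟨h1, h2⟩ := h
    have h3 := s.injective h1
    subst h3
    rw [(hF a).1 h2]
  have hfst : ∀ (l : ℕ) (q : Ξ × X), (Φ^[l] q).1 = s^[l] q.1 := by
    intro l q
    induction l with
    | zero => rfl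
    | succ l ih => rw [Function.iterate_succ_apply', Function.iterate_succ_apply', ← ih]
  have hper : ∀ q : Ξ × X, q.2 ∈ Bad q.1 → ∃ P : ℕ, 0 < P ∧ Φ^[P] q = q := by
    intro q hq
    have key : ∃ a b : ℕ, a ≠ b ∧ Φ^[a] q = Φ^[b] q := by
      by_contra hc
      push Not at hc
      apply hno
      refine ⟨q.1, fun l => (Φ^[l] q).2, hq, ?_, ?_⟩
      · intro l
        simp only [Function.iterate_succ_apply']
        rw [← hfst]
      · intro a b h1 h2
        by_contra hab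
        apply hc a b hab
        apply Prod.ext
        · rw [hfst, hfst, h1]
        · exact h2
    obtain ⟨a, b, hab, h⟩ := key
    have aux : ∀ a b : ℕ, a < b → Φ^[a] q = Φ^[b] q → ∃ P : ℕ, 0 < P ∧ Φ^[P] q = q := by
      intro a b hab h
      refine ⟨b - a, by omega, ?_⟩
      have h1 : b = a + (b - a) := by omega
      rw [h1, Function.iterate_add_apply] at h
      exact (hinj.iterate a h).symm
    rcases lt_or_gt_of_ne hab with h1 | h1
    · exact aux a b h1 h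
    · exact aux b a h1 h.symm
  set Bd : Set (Ξ × X) := {q | q.2 ∈ Bad q.1} with hBd
  have hBdfin : Bd.Finite := by
    have h1 : Bd = ⋃ ξ : Ξ, (fun u => (ξ, u)) '' (Bad ξ) := by
      ext ⟨ξ, u⟩
      simp [hBd]
    rw [h1]
    exact Set.finite_iUnion fun ξ => (hBad ξ).image _
  set O : Set (Ξ × X) := {p | ∃ q ∈ Bd, ∃ n : ℕ, Φ^[n] q = p} with hO
  have hOfin : O.Finite := by
    have h1 : O ⊆ ⋃ q ∈ Bd, {p | ∃ n : ℕ, Φ^[n] q = p} := by
      rintro p ⟨q, hq, n, hn⟩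
      simp only [Set.mem_iUnion]
      exact ⟨q, hq, n, hn⟩
    refine Set.Finite.subset (hBdfin.biUnion ?_) h1
    intro q hq
    obtain ⟨P, hP, hPq⟩ := hper q hq
    refine Set.Finite.subset ((Finset.range P).finite_toSet.image (fun n => Φ^[n] q)) ?_
    rintro p ⟨n, rfl⟩
    refine ⟨n % P, by simpa using Nat.mod_lt n hP, ?_⟩
    have h2 : Function.IsPeriodicPt Φ P q := hPq
    exact h2.iterate_mod_apply n
  refine ⟨fun ξ => {u | (ξ, u) ∈ O}, ?_, ?_, ?_⟩
  · intro ξ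
    exact hOfin.preimage (fun u _ v _ h => (Prod.mk.inj h).2)
  · intro ξ u hu
    refine ⟨fun hb => hu ⟨(ξ, u), hb, 0, rfl⟩, ?_⟩
    rintro ⟨q, hq, n, hn⟩
    obtain ⟨P, hP, hPq⟩ := hper q hq
    apply hu
    have h1 : Φ^[n + P] q = Φ (ξ, u) := by
      rw [Function.iterate_add_apply, hPq, hn]
    have h2 : n + P = (n + P - 1) + 1 := by omega
    rw [h2, Function.iterate_succ_apply'] at h1
    exact ⟨q, hq, n + P - 1, hinj h1⟩
  · rintro ξ u ⟨q, hq, n, hn⟩
    refine ⟨q, hq, n + 1, ?_⟩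
    rw [Function.iterate_succ_apply', hn]

end FS31
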