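import Pool.Agent.FS31.Nbh
import Pool.Agent.FS31.Per

/-!
# Type II points in the Julia set: directions with infinite orbits

MODULE FS31-JULIA.  Suppose that all `T (s^[n] ξ)` have degree one and that there is no infinite orbit as in
the statement.  Let `Ξ'` be the cycle of `ξ` (the subtype of the `η` with `∃ n, s^[n] ξ = η`) with the restricted
permutation (`Equiv.Perm.subtypePerm`).  `(T η).map` is bijective (`RM.map_injective`, `RM.map_surjective`), the set
of the directions with `spl ≠ 0` is finite (`finite_spl`), so `exists_per` applies and gives finite sets `Per η`;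
`exists_inv` (NDegOne) gives `t` and a disc; `exists_nbh` and `mem_fatou_of_inv` (for `A η = nbh R (c₀ η) (Per η) t`)
show that `zpt (c₀ ξ)` is in the Fatou set, a contradiction.
-/

open Polynomial

noncomputable section

namespace FS31

open Pool.Agent.FIC FS16

universe u

variable {K k : Type u} [NontriviallyNormedField K] [IsUltrametricDist K] [IsAlgClosed K] [Field k]
  [IsAlgClosed k]

theorem exists_infinite_orbit (R : Residue K k) {f : RatMap K} (hd : 2 ≤ f.degree) {Ξ : Type}
    [Fintype Ξ] (s : Equiv.Perm Ξ) (c₀ : Ξ → Chart K) (hJ : ∀ ξ, zpt (c₀ ξ) ∉ fatou f)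
    (T : Ξ → RM k) (h : Ξ → k[X])
    (good : ∀ ξ, GoodRed R ((toRM f).cj (c₀ ξ) (c₀ (s ξ))) (h ξ) (T ξ)) (ξ : Ξ)
    (hT : ∀ n : ℕ, (T (s^[n] ξ)).deg = 1) : ∃ (n : ℕ) (w : ℕ → OnePoint k),
      spl ((toRM f).cj (c₀ (s^[n] ξ)) (c₀ (s (s^[n] ξ)))) (h (s^[n] ξ)) (T (s^[n] ξ)) (w 0) ≠ 0 ∧
      (∀ l, (T (s^[n + l] ξ)).map (w l) = w (l + 1)) ∧
      ∀ a b, s^[a] ξ = s^[b] ξ → w a = w b → a = b := by
  classical
  by_contra hcon
  let Ξ' : Type := {η : Ξ // ∃ n : ℕ, s^[n] ξ = η}
  have hp : ∀ x : Ξ, (∃ n : ℕ, s^[n] ξ = s x) ↔ ∃ n : ℕ, s^[n] ξ = x := by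
    intro x
    constructor
    · rintro ⟨n, hn⟩
      have hm : 0 < orderOf s := orderOf_pos s
      refine ⟨(orderOf s - 1) + n, ?_⟩
      have h1 : s^[orderOf s] x = x := by
        rw [← Equiv.Perm.coe_pow, pow_orderOf_eq_one]
        rfl
      rw [Function.iterate_add_apply, hn, ← Function.iterate_succ_apply, Nat.succ_eq_add_one,
        Nat.sub_add_cancel hm, h1]
    · rintro ⟨n, hn⟩
      exact ⟨n + 1, by rw [Function.iterate_succ_apply', hn]⟩
  let s' : Equiv.Perm Ξ' := s.subtypePerm hp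
  have hs' : ∀ η : Ξ', ((s' η : Ξ') : Ξ) = s η := fun η => rfl
  have hit : ∀ (l : ℕ) (η : Ξ'), ((s'^[l] η : Ξ') : Ξ) = s^[l] (η : Ξ) := by
    intro l
    induction l with
    | zero => intro η; rfl
    | succ l ih => intro η; rw [Function.iterate_succ_apply', Function.iterate_succ_apply', hs', ih]
  have hT' : ∀ η : Ξ', (T η).deg = 1 := by
    rintro ⟨η, n, rfl⟩
    exact hT n
  obtain ⟨Per, hfin, h1, h2⟩ := exists_per s' (fun η => (T η).map)
    (fun η => ⟨RM.map_injective (T η) (hT' η), RM.map_surjective (T η) (hT' η).ge⟩)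
    (fun η => {u | spl ((toRM f).cj (c₀ η) (c₀ (s η))) (h η) (T η) u ≠ 0})
    (fun η => finite_spl (good η)) (by
      rintro ⟨⟨η, n, hn⟩, w, hw1, hw2, hw3⟩
      apply hcon
      refine ⟨n, w, ?_, ?_, ?_⟩
      · rw [hn]
        exact hw1
      · intro l
        have h3 := hw2 l
        rw [hit] at h3
        rw [add_comm n l, Function.iterate_add_apply, hn]
        exact h3
      · intro a b hab hwab
        apply hw3 a b _ hwab
        apply Subtype.ext
        rw [hit, hit]
        change s^[a] η = s^[b] η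
        rw [← hn, ← Function.iterate_add_apply, ← Function.iterate_add_apply, add_comm a n,
          add_comm b n, Function.iterate_add_apply, Function.iterate_add_apply, hab])
  obtain ⟨t, ht0, ht1, hmaps, a, r, hr, hav⟩ := exists_inv (R := R) (f := toRM f) hd s'
    (fun η => c₀ η) (fun η => T η) (fun η => h η) (fun η => good η) hT' Per hfin
    (fun η u hu => ⟨by
      have h3 := (h1 η u hu).1
      rw [Set.mem_ofPred_eq, not_not] at h3
      exact h3, (h1 η u hu).2⟩) h2
  refine hJ ξ (mem_fatou_of_inv (f := f) (by omega) s' (fun η => c₀ η)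
    (fun η => nbh R (c₀ η) (Per η) t) hmaps (fun η => ?_) hr hav ⟨ξ, 0, rfl⟩)
  exact exists_nbh R (c₀ η) (hfin η) ht1

end FS31
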