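import Pool.Agent.FS31.StepMk
import Pool.Agent.FS31.Julia

/-!
# From cycles of indifferent components to families

`U i l = f^l (U i)`, two boundary points `X i b` of `U i 0`.  `Ξ` is the finite set of all the points
`f^l (X i b)`; `f` permutes it.
-/

open Polynomial

noncomputable section

namespace FS31

open Pool.Agent.FIC FS16

universe u

variable {K : Type u} [NontriviallyNormedField K]

open Classical in
/-- a point of type I of a set -/
def pick (W : Set (BerkP K)) : OnePoint K :=
  if h : ∃ z : OnePoint K, toP z ∈ W then h.choose else OnePoint.infty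

theorem pick_mem [IsUltrametricDist K] [IsAlgClosed K] {W : Set (BerkP K)} (hO : IsOpen W)
    (hne : W.Nonempty) : toP (pick W) ∈ W := by
  have h : ∃ z : OnePoint K, toP z ∈ W := exists_toP_mem hO hne
  rw [pick, dif_pos h]
  exact h.choose_spec

theorem nonempty_comp {f : RatMap K} {U : Set (BerkP K)} (hU : IsFatouComponent f U) :
    U.Nonempty := by
  obtain ⟨ζ, hζ, rfl⟩ := hU
  exact ⟨ζ, mem_connectedComponentIn hζ⟩

theorem injOn_of_image_eq {X : Type*} {B : Set X} (hB : B.Finite) {g : X → X} (h : g '' B = B) :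
    Set.InjOn g B := by
  classical
  have h1 : hB.toFinset.image g = hB.toFinset := by
    apply Finset.coe_injective
    rw [Finset.coe_image, hB.coe_toFinset, h]
  have h2 : Set.InjOn g (hB.toFinset : Set X) := by
    apply Finset.card_image_iff.1
    rw [h1]
  rwa [hB.coe_toFinset] at h2

end FS31

namespace FS16

open Pool.Agent.FIC FS31

universe u

variable {K k : Type u} [NontriviallyNormedField K] [IsUltrametricDist K] [IsAlgClosed K] [Field k]
  [IsAlgClosed k]

theorem exists_fam (R : Residue K k) (f : RatMap K) (hf : 2 ≤ f.degree) {I : Type} [Fintype I]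
    (C : I → Set (Set (BerkP K))) (hC : ∀ i, C i ∈ multiCycles f) (hinj : Function.Injective C) :
    ∃ (Ξ : Type) (_ : Fintype Ξ), Nonempty (Fam R (toRM f) Ξ I) := by
  classical
  have hd : 1 ≤ f.degree := by omega
  -- the components
  have hdata : ∀ i, ∃ U, C i = cycleOf f U := fun i => (hC i).1
  choose U₀ hU₀ using hdata
  obtain ⟨U, hUdef⟩ : ∃ U : I → ℕ → Set (BerkP K), ∀ i l, U i l = f.map^[l] '' U₀ i :=
    ⟨fun i l => f.map^[l] '' U₀ i, fun _ _ => rfl⟩
  have hUC : ∀ i l, U i l ∈ C i := fun i l => by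
    rw [hU₀ i, hUdef]
    exact ⟨l, rfl⟩
  have hUs : ∀ i l, U i (l + 1) = f.map '' U i l := fun i l => by
    rw [hUdef, hUdef, Function.iterate_succ', Set.image_comp]
  have hInd : ∀ i l, IsIndifferent f (U i l) := fun i l => ((hC i).2 _ (hUC i l)).1
  have hHol : ∀ i l, HasHoles (U i l) := fun i l => ((hC i).2 _ (hUC i l)).2
  have hper : ∀ i, ∃ n, 1 ≤ n ∧ f.map^[n] '' U₀ i = U₀ i := by
    intro i
    obtain ⟨_, n, hn, h, _⟩ := hInd i 0
    refine ⟨n, hn, ?_⟩
    rw [hUdef] at h
    simpa using h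
  choose n hn hnU using hper
  have hUper1 : ∀ i l, U i (l + n i) = U i l := fun i l => by
    rw [hUdef, hUdef, Function.iterate_add, Set.image_comp, hnU]
  have hUper : ∀ i l m, U i (l + n i * m) = U i l := by
    intro i l m
    induction m with
    | zero => rfl
    | succ m ih => rw [Nat.mul_succ, ← add_assoc, hUper1, ih]
  have hbd : ∀ i l, f.map '' bd (U i l) = bd (U i (l + 1)) := by
    intro i l
    rw [hUs]
    exact image_bd hd (hInd i l).1 (by rw [← hUs]; exact (hInd i (l + 1)).1)
  -- the set of all boundary points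
  obtain ⟨B, hBdef⟩ : ∃ B : Set (BerkP K), B = ⋃ i, ⋃ l, bd (U i l) := ⟨_, rfl⟩
  have hBsub : ∀ i l, bd (U i l) ⊆ B := fun i l => by
    rw [hBdef]
    exact (Set.subset_iUnion (fun l => bd (U i l)) l).trans
      (Set.subset_iUnion (fun i => ⋃ l, bd (U i l)) i)
  have hBfin : B.Finite := by
    have h1 : B ⊆ ⋃ i, ⋃ l : Fin (n i), bd (U i l) := by
      rw [hBdef]
      refine Set.iUnion_mono fun i => Set.iUnion_subset fun l => ?_
      have h2 : U i l = U i (l % n i) := by
        conv_lhs => rw [← Nat.mod_add_div l (n i)]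
        exact hUper _ _ _
      rw [h2]
      exact Set.subset_iUnion (fun l : Fin (n i) => bd (U i l)) ⟨l % n i, Nat.mod_lt _ (hn i)⟩
    refine (Set.finite_iUnion fun i => Set.finite_iUnion fun l => ?_).subset h1
    exact bd_finite R (hHol _ _)
  have hBim : f.map '' B = B := by
    apply Set.Subset.antisymm
    · rintro _ ⟨x, hx, rfl⟩
      rw [hBdef] at hx
      simp only [Set.mem_iUnion] at hx
      obtain ⟨i, l, hx⟩ := hx
      apply hBsub i (l + 1)
      rw [← hbd]
      exact ⟨x, hx, rfl⟩
    · intro x hx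
      rw [hBdef] at hx
      simp only [Set.mem_iUnion] at hx
      obtain ⟨i, l, hx⟩ := hx
      have h1 : U i l = U i (l + (n i - 1) + 1) := by
        have := hn i
        rw [show l + (n i - 1) + 1 = l + n i by omega, hUper1]
      rw [h1, ← hbd] at hx
      obtain ⟨y, hy, rfl⟩ := hx
      exact ⟨y, hBsub _ _ hy, rfl⟩
  have hBinj : Set.InjOn f.map B := injOn_of_image_eq hBfin hBim
  -- two boundary points
  have htwo : ∀ i, ∃ X : Bool → BerkP K, (∀ b, X b ∈ bd (U i 0)) ∧ X true ≠ X false := by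
    intro i
    obtain ⟨x, hx, y, hy, hxy⟩ := exists_two_bd R (hHol i 0)
    exact ⟨fun b => bif b then x else y, fun b => by cases b <;> assumption, hxy⟩
  choose X hX hXne using htwo
  have hE : ∀ i b l, f.map^[l] (X i b) ∈ bd (U i l) := by
    intro i b l
    induction l with
    | zero => exact hX i b
    | succ l ih =>
      rw [← hbd, Function.iterate_succ_apply']
      exact ⟨_, ih, rfl⟩
  have hEne : ∀ i l, f.map^[l] (X i true) ≠ f.map^[l] (X i false) := by
    intro i l
    induction l with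
    | zero => exact hXne i
    | succ l ih =>
      rw [Function.iterate_succ_apply', Function.iterate_succ_apply']
      intro h
      exact ih (hBinj (hBsub _ _ (hE i true l)) (hBsub _ _ (hE i false l)) h)
  -- the set of the chosen points
  obtain ⟨S, hSdef⟩ : ∃ S : Set (BerkP K), S = {x | ∃ i b l, f.map^[l] (X i b) = x} := ⟨_, rfl⟩
  have hmem : ∀ i b l, f.map^[l] (X i b) ∈ S := fun i b l => by
    rw [hSdef]
    exact ⟨i, b, l, rfl⟩
  have hSB : S ⊆ B := by
    intro x hx
    rw [hSdef] at hx
    obtain ⟨i, b, l, rfl⟩ := hx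
    exact hBsub _ _ (hE i b l)
  have hSmap : ∀ x ∈ S, f.map x ∈ S := by
    intro x hx
    rw [hSdef] at hx ⊢
    obtain ⟨i, b, l, rfl⟩ := hx
    exact ⟨i, b, l + 1, Function.iterate_succ_apply' _ _ _⟩
  haveI : Finite S := (hBfin.subset hSB).to_subtype
  let g : S → S := fun x => ⟨f.map x.1, hSmap x.1 x.2⟩
  have hg : Function.Injective g := by
    intro x y h
    apply Subtype.ext
    exact hBinj (hSB x.2) (hSB y.2) (congrArg Subtype.val h)
  let σ : Equiv.Perm S := Equiv.ofBijective g (Finite.injective_iff_bijective.1 hg)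
  let e0 : S ≃ Fin (Nat.card S) := Finite.equivFin S
  let s : Equiv.Perm (Fin (Nat.card S)) := (e0.symm.trans σ).trans e0
  obtain ⟨pt', hpt'⟩ : ∃ pt' : Fin (Nat.card S) → BerkP K, ∀ ξ, pt' ξ = (e0.symm ξ).1 :=
    ⟨fun ξ => (e0.symm ξ).1, fun _ => rfl⟩
  have hptinj : Function.Injective pt' := by
    intro ξ ξ' h
    rw [hpt', hpt'] at h
    exact e0.symm.injective (Subtype.ext h)
  have hpts : ∀ ξ, pt' (s ξ) = f.map (pt' ξ) := by
    intro ξ
    rw [hpt', hpt']
    change (e0.symm (e0 (σ (e0.symm ξ)))).1 = _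
    rw [Equiv.symm_apply_apply]
    rfl
  obtain ⟨e, he⟩ : ∃ e : I → Bool → ℕ → Fin (Nat.card S), ∀ i b l, pt' (e i b l) = f.map^[l] (X i b) :=
    ⟨fun i b l => e0 ⟨_, hmem i b l⟩, fun i b l => by rw [hpt', Equiv.symm_apply_apply]⟩
  have hsurj : ∀ ξ, ∃ i b l, e i b l = ξ := by
    intro ξ
    have h1 : pt' ξ ∈ S := by
      rw [hpt']
      exact (e0.symm ξ).2
    rw [hSdef] at h1
    obtain ⟨i, b, l, h⟩ := h1
    refine ⟨i, b, l, hptinj ?_⟩
    rw [he, h]
  have hchart : ∀ ξ, ∃ c : Chart K, zpt c = pt' ξ := by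
    intro ξ
    obtain ⟨i, b, l, rfl⟩ := hsurj ξ
    rw [he]
    exact exists_chart_bd R (hHol i l) (hE i b l)
  choose c₀ hc₀ using hchart
  have hsame : ∀ {ξ : Fin (Nat.card S)} {c : Chart K}, SamePt (c₀ ξ) c → zpt c = pt' ξ := by
    intro ξ c h
    rw [← hc₀, (zpt_eq_iff (c₀ ξ) c).2 h]
  have hes : ∀ i b l, e i b (l + 1) = s (e i b l) := by
    intro i b l
    apply hptinj
    rw [hpts, he, he, Function.iterate_succ_apply']
  have hesm : ∀ i b l m, e i b (l + m) = (s ^ m) (e i b l) := by
    intro i b l m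
    induction m with
    | zero => rfl
    | succ m ih => rw [← add_assoc, hes, ih, pow_succ', Equiv.Perm.mul_apply]
  have hpick : ∀ i l, toP (pick (U i l)) ∈ U i l := fun i l =>
    pick_mem (isOpen_of_hasHoles R (hHol i l)) (nonempty_comp (hInd i l).1)
  refine ⟨Fin (Nat.card S), inferInstance, ⟨{
    s := s
    c₀ := c₀
    sep := ?_
    ex_good := ?_
    P := fun i => n i * orderOf s
    P_pos := fun i => Nat.mul_pos (hn i) (orderOf_pos s)
    e := e
    e_s := hes
    e_per := ?_
    e_surj := hsurj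
    pnt := fun i l => pick (U i l)
    pnt_per := ?_
    v_disj := ?_
    step := ?_
    julia := ?_ }⟩⟩
  · intro ξ ξ' h
    apply hptinj
    rw [← hc₀ ξ', hsame h]
  · intro ξ c c' h h'
    apply exists_goodRed R f
    rw [hsame h, hsame h', hpts]
  · intro i b l
    rw [hesm, mul_comm, pow_mul, pow_orderOf_eq_one, one_pow]
    rfl
  · intro i l
    change pick (U i (l + n i * orderOf s)) = pick (U i l)
    rw [hUper]
  · intro i i' b b' l l' h c hc hv
    have h1 : zpt c = f.map^[l] (X i b) := by rw [hsame hc, he]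
    have h2 : zpt c = f.map^[l'] (X i' b') := by rw [hsame hc, h, he]
    have h3 := inter_of_dir R (hHol i l) (hHol i' l') (hpick i l) (hpick i' l') (c := c)
      (by rw [h1]; exact hE i b l) (by rw [h2]; exact hE i' b' l') hv
    have h4 := inter_eq (hInd i l).1 (hInd i' l').1 h3
    apply hinj
    rw [cycle_eq_of_mem (hC i) (hUC i l), cycle_eq_of_mem (hC i') (hUC i' l'), h4]
  · intro i l c c' hc hc' T h hg'
    have h1 : OneToOneOn f (U i l) := by
      obtain ⟨_, m, hm, _, hone⟩ := hInd i l
      have := hone 0 (by omega)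
      simpa using this
    exact exists_step R hd (hHol i l) (by rw [← hUs]; exact hHol i (l + 1)) h1
      (by rw [hbd, hUs]) (hBinj.mono (hBsub i l)) (hpick i l)
      (by rw [← hUs]; exact hpick i (l + 1)) (x := fun b => pt' (e i b l))
      (fun b => by rw [he]; exact hE i b l) (by rw [he, he]; exact hEne i l) c c'
      (fun b => hsame (hc b)) (fun b => by rw [hsame (hc' b), hes, hpts]) T h hg'
  · intro T h good ξ hT
    refine exists_infinite_orbit R hf s c₀ (fun ξ => ?_) T h good ξ hT
    rw [hc₀]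
    obtain ⟨i, b, l, rfl⟩ := hsurj ξ
    rw [he]
    exact notMem_fatou (hInd i l).1 (hE i b l).1 (hE i b l).2

end FS16
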