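import Pool.Agent.FS31.Basic

/-!
# Components of the Fatou set and their boundaries

MODULE FS31-FAT.
* `notMem_fatou`: if `x ∈ fatou f` then `U ∪ {x}` is preconnected (`IsPreconnected.subset_closure`) and
  contained in the Fatou set, so contained in the component `U`.
* `inter_eq`: two components which meet are equal (`connectedComponentIn_eq`).
* `image_closure`: `BerkP K` is compact and T2, `f.map` is continuous (`continuous_map`):
  `closure (f '' U) = f '' closure U` (`image_closure_of_isCompact` or `IsClosedMap`).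
* `image_bd`: let `B U = closure U \ U`.  For components `U`, `f '' U`: if `x ∈ B U` then `f x ∈ closure (f '' U)`
  and `f x ∉ f '' U ⊆ fatou f` since otherwise `x ∈ fatou f` (`mem_fatou_of_map`), against
  `notMem_fatou`.  Conversely `y ∈ B (f '' U)` is `f x`, `x ∈ closure U`, `x ∉ U`.
* `cycle_eq_of_mem`: `C = cycleOf f U`, all members of `C` are indifferent, `W ∈ C`: then `C = cycleOf f W`:
  `W = f^a U`, `f^n U = U`, `n ≥ 1` (`U ∈ C`), so `f^j U = f^(j + a n) U = f^(j + a n - a) W`.
* `isPreconnected`: `isPreconnected_connectedComponentIn`.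
* `exists_toP_mem`: `dense_pt`: a nonempty open subset of `BerkP K` contains a point `toP z`: if it
  contains `∞ = toP ∞` fine, otherwise its preimage in `BerkA K` is open and nonempty.
-/

open Polynomial

noncomputable section

namespace FS31

open Pool.Agent.FIC FS16

universe u

variable {K : Type u} [NontriviallyNormedField K] [IsUltrametricDist K] [IsAlgClosed K]
  {f : RatMap K} {U U' : Set (BerkP K)}

theorem exists_toP_mem {O : Set (BerkP K)} (hO : IsOpen O) (hne : O.Nonempty) :
    ∃ z : OnePoint K, toP z ∈ O := by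
  by_cases h : (OnePoint.infty : BerkP K) ∈ O
  · exact ⟨OnePoint.infty, h⟩
  · have h1 : IsOpen ((fun ζ : BerkA K => (ζ : BerkP K)) ⁻¹' O) :=
      hO.preimage OnePoint.continuous_coe
    have h2 : ((fun ζ : BerkA K => (ζ : BerkP K)) ⁻¹' O).Nonempty := by
      obtain ⟨x, hx⟩ := hne
      cases x using OnePoint.rec with
      | infty => exact absurd hx h
      | coe ζ => exact ⟨ζ, hx⟩
    obtain ⟨ξ, hξ, z, rfl⟩ := dense_pt.inter_open_nonempty _ h1 h2
    exact ⟨(z : OnePoint K), hξ⟩

theorem isPreconnected_comp (hU : IsFatouComponent f U) : IsPreconnected U := by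
  obtain ⟨ζ, -, rfl⟩ := hU
  exact isPreconnected_connectedComponentIn

theorem comp_subset_fatou (hU : IsFatouComponent f U) : U ⊆ fatou f := by
  obtain ⟨ζ, -, rfl⟩ := hU
  exact connectedComponentIn_subset _ _

theorem notMem_fatou (hU : IsFatouComponent f U) {x : BerkP K} (hx : x ∈ closure U) (hx' : x ∉ U) :
    x ∉ fatou f := by
  intro hxf
  apply hx'
  have h1 : IsPreconnected (insert x U) := by
    refine (isPreconnected_comp hU).subset_closure (Set.subset_insert _ _) ?_
    rw [Set.insert_subset_iff]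
    exact ⟨hx, subset_closure⟩
  have h2 : insert x U ⊆ fatou f := by
    rw [Set.insert_subset_iff]
    exact ⟨hxf, comp_subset_fatou hU⟩
  obtain ⟨ζ, hζ, rfl⟩ := hU
  have h3 := h1.subset_connectedComponentIn
    (Set.mem_insert_of_mem _ (mem_connectedComponentIn hζ)) h2
  exact h3 (Set.mem_insert _ _)

theorem inter_eq (hU : IsFatouComponent f U) (hU' : IsFatouComponent f U') (h : (U ∩ U').Nonempty) :
    U = U' := by
  obtain ⟨z, hz, hz'⟩ := h
  obtain ⟨ζ, -, rfl⟩ := hU
  obtain ⟨ζ', -, rfl⟩ := hU'
  rw [connectedComponentIn_eq hz, connectedComponentIn_eq hz']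

theorem closure_image (U : Set (BerkP K)) : closure (f.map '' U) = f.map '' closure U :=
  (continuous_map f).isClosedMap.closure_image_eq_of_continuous (continuous_map f) U

theorem image_bd (hd : 1 ≤ f.degree) (hU : IsFatouComponent f U)
    (hU' : IsFatouComponent f (f.map '' U)) :
    f.map '' (closure U \ U) = closure (f.map '' U) \ f.map '' U := by
  rw [closure_image]
  ext y
  constructor
  · rintro ⟨x, ⟨hx, hx'⟩, rfl⟩
    refine ⟨⟨x, hx, rfl⟩, fun h => ?_⟩
    exact notMem_fatou hU hx hx' (mem_fatou_of_map hd (comp_subset_fatou hU' h))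
  · rintro ⟨⟨x, hx, rfl⟩, hy⟩
    exact ⟨x, ⟨hx, fun h => hy ⟨x, h, rfl⟩⟩, rfl⟩

theorem cycle_eq_of_mem {C : Set (Set (BerkP K))} (hC : C ∈ multiCycles f) {W : Set (BerkP K)}
    (hW : W ∈ C) : C = cycleOf f W := by
  obtain ⟨⟨U, rfl⟩, hC'⟩ := hC
  have hU : U ∈ cycleOf f U := ⟨0, by simp⟩
  obtain ⟨⟨-, n, hn, hnU, -⟩, -⟩ := hC' U hU
  obtain ⟨a, rfl⟩ := hW
  have hk : ∀ k : ℕ, f.map^[k * n] '' U = U := by
    intro k
    induction k with
    | zero => simp
    | succ k ih =>
      rw [Nat.succ_mul, Function.iterate_add, Set.image_comp, hnU, ih]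
  apply Set.Subset.antisymm
  · rintro V ⟨j, rfl⟩
    have h1 : a ≤ a * n := Nat.le_mul_of_pos_right a hn
    refine ⟨j + a * n - a, ?_⟩
    change f.map^[j + a * n - a] '' (f.map^[a] '' U) = f.map^[j] '' U
    rw [← Set.image_comp, ← Function.iterate_add,
      show j + a * n - a + a = j + a * n by omega, Function.iterate_add, Set.image_comp, hk]
  · rintro V ⟨j, rfl⟩
    refine ⟨j + a, ?_⟩
    change f.map^[j + a] '' U = f.map^[j] '' (f.map^[a] '' U)
    rw [Function.iterate_add, Set.image_comp]

end FS31
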