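import Pool.Agent.FS31.Basic

/-!
# Reductions at type II points

MODULE FS31-GOOD.  If `f` maps the type II point of the chart `c` to that of the chart `c'` then
`f.cj c c'` has a reduction.

Proof.  Let `G ζ g` be the Gauss norm at `c`: `(gp c.a ‖c.ρ‖).1 g` is the maximum of the norms of the
coefficients of `g (a + ρ X)` (both sides are multiplicative and agree for `g = C e` and for
`g = X - C b`: `max ‖a - b‖ ‖ρ‖`; `val_eq_prod`, `IsAlgClosed.splits`; the maximum of the norms of the coefficients,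
`gaussNorm` for the radius 1, is multiplicative: `gaussNorm_mul`), and `g (a + ρ X)` reflected has the same
coefficients in a different order (`reflect d`, `natDegree ≤ d`).
By `del_push`, `map_coe_of_ne`, `map_coe_of_eq`: `f.map (zpt c) = zpt c'` gives `ζ Q ≠ 0` and, for all `b`,
`ζ (P - b Q) = ζ Q * max ‖a' - b‖ ‖ρ'‖`.
Let `(P̃, Q̃) = (preP d P, preP d Q)`, `d = deg f`; `preP` is additive and commutes with constants, so the
Gauss norm of `P̃ - b Q̃` is `ζ (P - b Q)`.
Case `c'` not inverted: `(p, q) = (P̃ - a' Q̃, ρ' Q̃)`.  For `‖e‖ ≤ 1` the Gauss norm of `p - e q = P̃ - (a' + e ρ') Q̃` is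
`ζ Q * ‖ρ'‖` which is the Gauss norm `N` of `q`.  Let `κ` be the inverse of a coefficient of `q` of norm
`N`, then `κ p`, `κ q` have reductions `A`, `B` (`exists_isRed`), with `B ≠ 0` and `A - e B ≠ 0` for
all `e ∈ k` (`IsRed.exists_norm_eq_one` and its converse: if all coefficients of a polynomial have norm
`< 1` its reduction is zero and vice versa).  Let `h = gcd A B` (`EuclideanDomain.gcd`), `A = h T₁`,
`B = h T₂`, `T₁`, `T₂` coprime (`EuclideanDomain.gcd_eq_gcd_ab`, or `isCoprime_div_gcd_div_gcd`); if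
`T₁`, `T₂` were both constant then `A - e B = 0` for some `e` (`T₂ ≠ 0`).  So `1 ≤ T.deg`.
Case `c'` inverted: the pair is `(ρ' Q̃, P̃ - a' Q̃)`, swapped.
-/

open Polynomial

noncomputable section

namespace FS31

open Pool.Agent.FIC FS16

universe u

variable {K k : Type u} [NontriviallyNormedField K] [IsUltrametricDist K] [IsAlgClosed K] [Field k]
  [IsAlgClosed k]

namespace GR

/-- the Gauss norm of radius one: the maximum of the norms of the coefficients -/
def gn (g : K[X]) : ℝ := g.gaussNorm (abvK K) 1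

omit [IsUltrametricDist K] [IsAlgClosed K] in
lemma le_gn (g : K[X]) (i : ℕ) : ‖g.coeff i‖ ≤ gn g := by
  have h := le_gaussNorm (abvK K) g zero_le_one i
  rw [one_pow, mul_one] at h
  exact h

omit [IsUltrametricDist K] [IsAlgClosed K] in
lemma exists_gn (g : K[X]) : ∃ i, gn g = ‖g.coeff i‖ := by
  obtain ⟨i, hi⟩ := exists_eq_gaussNorm (v := abvK K) (c := 1) (p := g)
  refine ⟨i, ?_⟩
  rw [one_pow, mul_one] at hi
  exact hi

omit [IsAlgClosed K] in
lemma gn_mul (g h : K[X]) : gn (g * h) = gn g * gn h := by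
  have hna : IsNonarchimedean (abvK K) := fun x y => IsUltrametricDist.norm_add_le_max x y
  exact gaussNorm_mul hna one_pos g h

omit [IsUltrametricDist K] [IsAlgClosed K] in
lemma gn_C (x : K) : gn (C x) = ‖x‖ := by
  unfold gn
  rw [gaussNorm_C]
  rfl

omit [IsUltrametricDist K] [IsAlgClosed K] in
lemma gn_reflect (d : ℕ) (g : K[X]) : gn (g.reflect d) = gn g := by
  apply le_antisymm
  · obtain ⟨i, hi⟩ := exists_gn (g.reflect d)
    rw [hi, coeff_reflect]
    exact le_gn _ _
  · obtain ⟨i, hi⟩ := exists_gn g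
    rw [hi]
    have h := le_gn (g.reflect d) (revAt d i)
    rw [coeff_reflect, revAt_invol] at h
    exact h

/-- The Gauss norm at the type II point of the chart. -/
lemma val_gp (c : Chart K) (g : K[X]) :
    (gp c.a ‖c.ρ‖).1 g = gn (g.comp (C c.a + C c.ρ * X)) := by
  have hna : IsNonarchimedean (abvK K) := fun x y => IsUltrametricDist.norm_add_le_max x y
  have hadd := isNonarchimedean_gaussNorm (abvK K) hna (zero_le_one (α := ℝ))
  have hρ : 0 < ‖c.ρ‖ := norm_pos_iff.2 c.hρ
  let N : MulRingSeminorm K[X] :=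
    { toFun := fun g => gn (g.comp (C c.a + C c.ρ * X))
      map_zero' := by simp [gn]
      add_le' := fun g h => by
        rw [add_comp]
        refine (hadd _ _).trans (max_le ?_ ?_)
        · exact le_add_of_nonneg_right (gaussNorm_nonneg _ _ zero_le_one)
        · exact le_add_of_nonneg_left (gaussNorm_nonneg _ _ zero_le_one)
      neg' := fun g => by
        have h1 : gn (-1 : K[X]) = 1 := by
          rw [show (-1 : K[X]) = C (-1) by simp, gn_C]
          simp
        rw [neg_comp, ← neg_one_mul, gn_mul, h1, one_mul]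
      map_one' := by
        rw [one_comp, show (1 : K[X]) = C 1 by simp, gn_C, norm_one]
      map_mul' := fun g h => by
        rw [mul_comp, gn_mul] }
  let ξ : BerkA K := ⟨N, fun x => by
    change gn ((C x : K[X]).comp (C c.a + C c.ρ * X)) = ‖x‖
    rw [C_comp, gn_C]⟩
  have hξ : gp c.a ‖c.ρ‖ = ξ := by
    apply BerkA.ext_del
    intro b
    rw [del_gp c.a hρ]
    change _ = gn ((X - C b : K[X]).comp (C c.a + C c.ρ * X))
    have e : (X - C b : K[X]).comp (C c.a + C c.ρ * X) = C c.ρ * X + C (c.a - b) := by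
      simp only [sub_comp, X_comp, C_comp, map_sub]
      ring
    rw [e]
    apply le_antisymm
    · apply max_le
      · have h := le_gn (C c.ρ * X + C (c.a - b)) 0
        simp only [coeff_add, coeff_C_mul, coeff_X_zero, coeff_C_zero, mul_zero, zero_add] at h
        exact h
      · have h := le_gn (C c.ρ * X + C (c.a - b)) 1
        simp only [coeff_add, coeff_C_mul, coeff_X_one, coeff_C_succ, mul_one, add_zero] at h
        exact h
    · refine (hadd _ _).trans (max_le ?_ ?_)
      · refine le_trans (le_of_eq ?_) (le_max_right _ _)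
        change gn (C c.ρ * X) = ‖c.ρ‖
        rw [gn_mul, gn_C]
        have h1 : gn (X : K[X]) = 1 := by
          unfold gn
          rw [show (X : K[X]) = monomial 1 1 from rfl, gaussNorm_monomial, map_one]
          simp
        rw [h1, mul_one]
      · refine le_trans (le_of_eq ?_) (le_max_left _ _)
        exact gn_C _
  rw [hξ]
  rfl

lemma gn_preP (c : Chart K) (d : ℕ) (g : K[X]) : gn (c.preP d g) = (gp c.a ‖c.ρ‖).1 g := by
  rw [val_gp]
  unfold Chart.preP
  split_ifs
  · exact gn_reflect _ _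
  · rfl

/-- Existence of the reduction of a pair. -/
lemma exists_red (R : Residue K k) {p q : K[X]} (hq : q ≠ 0)
    (hN : ∀ e : K, ‖e‖ ≤ 1 → gn (p - C e * q) = gn q) :
    ∃ (h t₁ t₂ : k[X]), IsCoprime t₁ t₂ ∧ h ≠ 0 ∧ 1 ≤ max t₁.natDegree t₂.natDegree ∧
      ∃ κ : K, κ ≠ 0 ∧ IsRed R (C κ * p) (h * t₁) ∧ IsRed R (C κ * q) (h * t₂) := by
  obtain ⟨i, hi⟩ := exists_gn q
  have hpos : 0 < gn q := by
    obtain ⟨j, hj⟩ : ∃ j, q.coeff j ≠ 0 := by
      by_contra hcon
      push Not at hcon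
      exact hq (Polynomial.ext (by simpa using hcon))
    exact (norm_pos_iff.2 hj).trans_le (le_gn q j)
  have hqi : q.coeff i ≠ 0 := by
    intro h0
    rw [h0, norm_zero] at hi
    exact hpos.ne' hi
  set κ : K := (q.coeff i)⁻¹ with hκ
  have hκ0 : κ ≠ 0 := inv_ne_zero hqi
  have hκn : ‖κ‖ * gn q = 1 := by
    rw [hκ, norm_inv, hi, inv_mul_cancel₀ (norm_ne_zero_iff.2 hqi)]
  have hscale : ∀ g : K[X], gn g = gn q → gn (C κ * g) = 1 := by
    intro g hg
    rw [gn_mul, gn_C, hg, hκn]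
  have h0 : gn p = gn q := by
    have := hN 0 (by rw [norm_zero]; exact zero_le_one)
    rwa [C_0, zero_mul, sub_zero] at this
  have h1 : gn (C κ * p) = 1 := hscale p h0
  have h2 : gn (C κ * q) = 1 := hscale q rfl
  obtain ⟨A, hA⟩ := exists_isRed (R := R) (g := C κ * p) (fun j => (le_gn _ j).trans h1.le)
  obtain ⟨B, hB⟩ := exists_isRed (R := R) (g := C κ * q) (fun j => (le_gn _ j).trans h2.le)
  have hB0 : B ≠ 0 := by
    intro hB0
    have h3 := (hB i).2
    rw [hB0, coeff_zero, coeff_C_mul, hκ, inv_mul_cancel₀ hqi, R.one] at h3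
    exact one_ne_zero h3
  have hAB : ∀ e : k, A - C e * B ≠ 0 := by
    intro e he
    have h3 := hN (R.lift e) (R.norm_lift e)
    have h4 := hscale _ h3
    have h5 : IsRed R (C κ * (p - C (R.lift e) * q)) (A - C e * B) := by
      have h6 := hB.C_mul (R.norm_lift e)
      rw [R.red_lift] at h6
      have h7 := hA.sub h6
      have e1 : C κ * p - C (R.lift e) * (C κ * q) = C κ * (p - C (R.lift e) * q) := by ring
      rwa [e1] at h7
    obtain ⟨j, hj⟩ := exists_gn (C κ * (p - C (R.lift e) * q))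
    rw [h4] at hj
    have h8 := (h5 j).2
    rw [he, coeff_zero] at h8
    exact (R.norm_eq_one (h5 j).1).2 hj.symm h8
  classical
  set h := EuclideanDomain.gcd A B with hh
  have hh0 : h ≠ 0 := by
    intro h9
    rw [hh, EuclideanDomain.gcd_eq_zero_iff] at h9
    exact hB0 h9.2
  obtain ⟨t₁, ht₁⟩ := EuclideanDomain.gcd_dvd_left A B
  obtain ⟨t₂, ht₂⟩ := EuclideanDomain.gcd_dvd_right A B
  rw [← hh] at ht₁ ht₂
  have hcop : IsCoprime t₁ t₂ := by
    have h9 := EuclideanDomain.gcd_eq_gcd_ab A B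
    rw [← hh] at h9
    refine ⟨EuclideanDomain.gcdA A B, EuclideanDomain.gcdB A B, ?_⟩
    apply mul_left_cancel₀ hh0
    rw [mul_one]
    conv_rhs => rw [h9]
    conv_rhs => rw [ht₁, ht₂]
    rw [← ht₁, ← ht₂]
    conv_lhs => rw [mul_add]
    have e1 : h * (EuclideanDomain.gcdA A B * t₁) = h * t₁ * EuclideanDomain.gcdA A B := by ring
    have e2 : h * (EuclideanDomain.gcdB A B * t₂) = h * t₂ * EuclideanDomain.gcdB A B := by ring
    rw [e1, e2, ← ht₁, ← ht₂]
  refine ⟨h, t₁, t₂, hcop, hh0, ?_, κ, hκ0, ?_, ?_⟩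
  · by_contra hcon
    have h9 : t₁.natDegree = 0 ∧ t₂.natDegree = 0 := by omega
    have e1 := eq_C_of_natDegree_eq_zero h9.1
    have e2 := eq_C_of_natDegree_eq_zero h9.2
    have h10 : t₂.coeff 0 ≠ 0 := by
      intro h11
      rw [h11, C_0] at e2
      rw [e2, mul_zero] at ht₂
      exact hB0 ht₂
    apply hAB (t₁.coeff 0 / t₂.coeff 0)
    rw [ht₁, ht₂]
    conv_lhs => rw [e1, e2]
    rw [coeff_C_zero, coeff_C_zero]
    have e3 : C (t₁.coeff 0) = C (t₁.coeff 0 / t₂.coeff 0) * C (t₂.coeff 0) := by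
      rw [← C_mul, div_mul_cancel₀ _ h10]
    rw [e3]
    ring
  · rw [← ht₁]; exact hA
  · rw [← ht₂]; exact hB

end GR

open GR in
theorem exists_goodRed (R : Residue K k) (f : RatMap K) {c c' : Chart K}
    (h : f.map (zpt c) = zpt c') : ∃ (h : k[X]) (T : RM k), GoodRed R ((toRM f).cj c c') h T := by
  have hρ' : 0 < ‖c'.ρ‖ := norm_pos_iff.2 c'.hρ
  set ζ : BerkA K := gp c.a ‖c.ρ‖ with hζ
  have hQ : ζ.1 f.Q ≠ 0 := by
    intro hQ
    have h1 := map_coe_of_eq f (ζ := ζ) hQ
    unfold zpt at h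
    rw [h] at h1
    exact OnePoint.coe_ne_infty _ h1
  have hmap := map_coe_of_ne f hQ
  unfold zpt at h
  rw [h] at hmap
  have hpush : push f ζ hQ = gp c'.a ‖c'.ρ‖ := (OnePoint.coe_injective hmap).symm
  have hval : ∀ b : K, ζ.1 (f.P - C b * f.Q) = ζ.1 f.Q * max ‖c'.a - b‖ ‖c'.ρ‖ := by
    intro b
    have h1 := del_push f ζ hQ b
    rw [hpush, del_gp c'.a hρ'] at h1
    rw [h1, mul_div_cancel₀ _ hQ]
  set d := (toRM f).deg with hd
  set P := c.preP d f.P with hP
  set Q := c.preP d f.Q with hQd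
  have hgn : ∀ b : K, gn (P - C b * Q) = ζ.1 f.Q * max ‖c'.a - b‖ ‖c'.ρ‖ := by
    intro b
    rw [hP, hQd, ← NC.preP_C_mul, ← NC.preP_sub, gn_preP, hval]
  have hgQ : gn Q = ζ.1 f.Q := by rw [hQd, gn_preP]
  have hQ0 : Q ≠ 0 := by
    intro h0
    rw [h0] at hgQ
    apply hQ
    rw [← hgQ]
    simp [gn]
  obtain ⟨h, t₁, t₂, hc, hh, hdeg, κ, hκ, hr₁, hr₂⟩ := exists_red R (p := P - C c'.a * Q)
    (q := C c'.ρ * Q) (mul_ne_zero (by simpa using c'.hρ) hQ0) (by
      intro e he
      have e1 : P - C c'.a * Q - C e * (C c'.ρ * Q) = P - C (c'.a + e * c'.ρ) * Q := by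
        rw [C_add, C_mul]
        ring
      rw [e1, hgn, gn_mul, gn_C, hgQ, mul_comm]
      congr 1
      have e2 : c'.a - (c'.a + e * c'.ρ) = -(e * c'.ρ) := by ring
      rw [e2, norm_neg, norm_mul]
      apply max_eq_right
      calc ‖e‖ * ‖c'.ρ‖ ≤ 1 * ‖c'.ρ‖ := mul_le_mul_of_nonneg_right he hρ'.le
        _ = ‖c'.ρ‖ := one_mul _)
  have hp : ((toRM f).cj c c').p = c'.num P Q := rfl
  have hq : ((toRM f).cj c c').q = c'.den P Q := rfl
  unfold Chart.num at hp
  unfold Chart.den at hq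
  rcases Bool.eq_false_or_eq_true c'.inv with hi | hi
  · rw [if_pos hi] at hp hq
    refine ⟨h, ⟨t₂, t₁, hc.symm⟩, hh, ?_, κ, hκ, ?_, ?_⟩
    · unfold RM.deg
      simp only
      rwa [max_comm]
    · rw [hp]; exact hr₂
    · rw [hq]; exact hr₁
  · rw [if_neg (by simp [hi])] at hp hq
    refine ⟨h, ⟨t₁, t₂, hc⟩, hh, hdeg, κ, hκ, ?_, ?_⟩
    · rw [hp]; exact hr₁
    · rw [hq]; exact hr₂

end FS31
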