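import Pool.Agent.FS31.Disk
import Pool.Agent.FS31.Fat

/-!
# Complements of disjoint rational closed disks

MODULE FS31-HOLES.  `bd U = closure U \ U`.  Let `U = (⋃ V i)ᶜ`, `i : Fin N`, `N ≥ 2`, and let `c i`, `v i` be as in
`exists_chart_of_disk` for `V i`, `x i = zpt (c i)`.  Then `bd U` is the set of the `x i`: `U` is open;
`closure U ⊆ closure (V i)ᶜ = (V i)ᶜ ∪ {x i}` for all `i`, so a point of `closure U` which is not in `U` is some `x i`;
conversely `x i ∈ V i` is not in `U`, and `x i ∈ closure U`: `x i ∈ closure (V i)ᶜ` and the complement of the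
closed set `⋃ j ≠ i, V j` is an open neighbourhood of `x i` (disjointness), and its intersection with
`(V i)ᶜ` is `U` (`mem_closure_iff`).  The `x i` are different because the `V i` are disjoint.
`mem_iff`, `disj`: by `disk_iff` (for the chart `c (x i)`).
`inter_of_dir`: `x = zpt c` is a boundary point of `U` and of `U'`.  The complement of the (closed) union of all the disks
`V i`, `V' j` which do not contain `x` is an open neighbourhood `O` of `x`; `O ∩ U` is open and not empty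
(`x ∈ closure U`), so it contains a point `toP z` (`exists_toP_mem`).  The direction of `z` at `c` is that of
`z₀` (`dir_eq`), hence that of `z₀'`, so `z` is not in the disk `V' j` that contains `x` (`disk_iff`), and not in
the others by `z ∈ O`: `toP z ∈ U'`.
-/

open Polynomial

noncomputable section

namespace FS31

open Pool.Agent.FIC FS16

universe u

variable {K k : Type u} [NontriviallyNormedField K] [IsUltrametricDist K] [IsAlgClosed K] [Field k]

/-- the boundary -/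
def bd (U : Set (BerkP K)) : Set (BerkP K) := closure U \ U

/-- the data of the holes: the disks, their boundary points and their charts -/
theorem hole_data (R : Residue K k) {U : Set (BerkP K)} (hU : HasHoles U) :
    ∃ N : ℕ, 2 ≤ N ∧ ∃ (V : Fin N → Set (BerkP K)) (c : Fin N → Chart K),
      (∀ i, IsRatClosedDisk (V i)) ∧ (∀ i j, i ≠ j → Disjoint (V i) (V j)) ∧ U = (⋃ i, V i)ᶜ ∧
      (∀ i, IsClosed (V i)) ∧ (∀ i, zpt (c i) ∈ V i) ∧ (∀ i, zpt (c i) ∈ closure (V i)ᶜ) ∧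
      IsOpen U ∧ bd U = Set.range fun i => zpt (c i) := by
  obtain ⟨N, hN, V, hV, hVd, hUV⟩ := hU
  choose c v h1 h2 h3 h4 using fun i => exists_chart_of_disk R (hV i)
  have hop : IsOpen U := by
    rw [hUV]
    exact (isClosed_iUnion_of_finite h1).isOpen_compl
  refine ⟨N, hN, V, c, hV, hVd, hUV, h1, h2, fun i => ?_, hop, ?_⟩
  · rw [h3 i]
    exact Or.inr rfl
  · apply Set.Subset.antisymm
    · rintro x ⟨hx, hx'⟩
      rw [hUV, Set.mem_compl_iff, not_not, Set.mem_iUnion] at hx'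
      obtain ⟨i, hi⟩ := hx'
      have h5 : U ⊆ (V i)ᶜ := by
        rw [hUV]
        exact Set.compl_subset_compl.2 (Set.subset_iUnion V i)
      have h6 := closure_mono h5 hx
      rw [h3 i] at h6
      rcases h6 with h | h
      · exact absurd hi h
      · exact ⟨i, h.symm⟩
    · rintro _ ⟨i, rfl⟩
      constructor
      · rw [mem_closure_iff]
        intro O hO hxO
        have h5 : zpt (c i) ∈ closure (V i)ᶜ := by
          rw [h3 i]
          exact Or.inr rfl
        have h6 : IsClosed (⋃ j : {j : Fin N // j ≠ i}, V j) :=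
          isClosed_iUnion_of_finite fun j => h1 j
        have h7 : zpt (c i) ∈ O ∩ (⋃ j : {j : Fin N // j ≠ i}, V j)ᶜ := by
          refine ⟨hxO, ?_⟩
          rw [Set.mem_compl_iff, Set.mem_iUnion]
          rintro ⟨j, hj⟩
          exact Set.disjoint_left.1 (hVd j i j.2) hj (h2 i)
        obtain ⟨y, hy1, hy2⟩ := mem_closure_iff.1 h5 _ (hO.inter h6.isOpen_compl) h7
        refine ⟨y, hy1.1, ?_⟩
        rw [hUV, Set.mem_compl_iff, Set.mem_iUnion]
        rintro ⟨j, hj⟩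
        by_cases hji : j = i
        · rw [hji] at hj
          exact hy2 hj
        · exact hy1.2 (Set.mem_iUnion.2 ⟨⟨j, hji⟩, hj⟩)
      · rw [hUV, Set.mem_compl_iff, not_not]
        exact Set.mem_iUnion.2 ⟨i, h2 i⟩

theorem isOpen_of_hasHoles (R : Residue K k) {U : Set (BerkP K)} (hU : HasHoles U) : IsOpen U := by
  obtain ⟨N, hN, V, c, hV, hVd, hUV, hcl, hc, hc', hop, hbd⟩ := hole_data R hU
  exact hop

theorem bd_finite (R : Residue K k) {U : Set (BerkP K)} (hU : HasHoles U) : (bd U).Finite := by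
  obtain ⟨N, hN, V, c, hV, hVd, hUV, hcl, hc, hc', hop, hbd⟩ := hole_data R hU
  rw [hbd]
  exact Set.finite_range _

theorem exists_two_bd (R : Residue K k) {U : Set (BerkP K)} (hU : HasHoles U) :
    ∃ x ∈ bd U, ∃ y ∈ bd U, x ≠ y := by
  obtain ⟨N, hN, V, c, hV, hVd, hUV, hcl, hc, hc', hop, hbd⟩ := hole_data R hU
  rw [hbd]
  refine ⟨_, ⟨⟨0, by omega⟩, rfl⟩, _, ⟨⟨1, by omega⟩, rfl⟩, fun h => ?_⟩
  have h1 : (⟨0, by omega⟩ : Fin N) ≠ ⟨1, by omega⟩ := by
    intro h
    have := congrArg Fin.val h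
    simp at this
  have h2 := hc ⟨0, by omega⟩
  have h3 := hc ⟨1, by omega⟩
  simp only at h
  rw [← h] at h3
  exact Set.disjoint_left.1 (hVd _ _ h1) h2 h3

theorem exists_chart_bd (R : Residue K k) {U : Set (BerkP K)} (hU : HasHoles U) {x : BerkP K}
    (hx : x ∈ bd U) : ∃ c : Chart K, zpt c = x := by
  obtain ⟨N, hN, V, c, hV, hVd, hUV, hcl, hc, hc', hop, hbd⟩ := hole_data R hU
  rw [hbd] at hx
  obtain ⟨i, hi⟩ := hx
  exact ⟨c i, hi⟩

theorem mem_iff (R : Residue K k) {U : Set (BerkP K)} (hU : HasHoles U) {z₀ : OnePoint K}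
    (hz₀ : toP z₀ ∈ U) {c : BerkP K → Chart K} (hc : ∀ x ∈ bd U, zpt (c x) = x) (z : OnePoint K) :
    toP z ∈ U ↔ ∀ x ∈ bd U, dirR R ((c x).to z) = dirR R ((c x).to z₀) := by
  obtain ⟨N, hN, V, c₁, hV, hVd, hUV, hcl, hc₁, hc', hop, hbd⟩ := hole_data R hU
  have hU1 : ∀ y, y ∈ U ↔ ∀ i, y ∉ V i := by
    intro y
    rw [hUV, Set.mem_compl_iff, Set.mem_iUnion, not_exists]
  have key : ∀ i, toP z ∈ V i ↔
      dirR R ((c (zpt (c₁ i))).to z) ≠ dirR R ((c (zpt (c₁ i))).to z₀) := by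
    intro i
    have h1 : zpt (c (zpt (c₁ i))) = zpt (c₁ i) := by
      apply hc
      rw [hbd]
      exact ⟨i, rfl⟩
    apply disk_iff R (hV i)
    · rw [h1]
      exact hc₁ i
    · rw [h1]
      exact hc' i
    · exact (hU1 _).1 hz₀ i
  rw [hU1, hbd, Set.forall_mem_range]
  apply forall_congr'
  intro i
  rw [key i, not_not]

theorem disj (R : Residue K k) {U : Set (BerkP K)} (hU : HasHoles U) {z₀ : OnePoint K}
    (hz₀ : toP z₀ ∈ U) {x y : BerkP K} (hx : x ∈ bd U) (hy : y ∈ bd U) (hxy : x ≠ y) {c c' : Chart K}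
    (hc : zpt c = x) (hc' : zpt c' = y) (z : OnePoint K)
    (hz : dirR R (c.to z) ≠ dirR R (c.to z₀)) : dirR R (c'.to z) = dirR R (c'.to z₀) := by
  obtain ⟨N, hN, V, c₁, hV, hVd, hUV, hcl, hc₁, hc₁', hop, hbd⟩ := hole_data R hU
  have hU1 : ∀ y, y ∈ U ↔ ∀ i, y ∉ V i := by
    intro y
    rw [hUV, Set.mem_compl_iff, Set.mem_iUnion, not_exists]
  rw [hbd] at hx hy
  obtain ⟨i, hi⟩ := hx
  obtain ⟨j, hj⟩ := hy
  simp only at hi hj
  have hij : i ≠ j := by
    rintro rfl
    exact hxy (hi.symm.trans hj)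
  have h1 : toP z ∈ V i := by
    refine (disk_iff R (hV i) ?_ ?_ ((hU1 _).1 hz₀ i) z).2 hz
    · rw [hc, ← hi]
      exact hc₁ i
    · rw [hc, ← hi]
      exact hc₁' i
  by_contra h2
  have h3 : toP z ∈ V j := by
    refine (disk_iff R (hV j) ?_ ?_ ((hU1 _).1 hz₀ j) z).2 h2
    · rw [hc', ← hj]
      exact hc₁ j
    · rw [hc', ← hj]
      exact hc₁' j
  exact Set.disjoint_left.1 (hVd i j hij) h1 h3

/-- a chart at a boundary point: all the points of the component have the same direction -/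
theorem dir_eq (R : Residue K k) {U : Set (BerkP K)} (hU : HasHoles U) {z₀ z : OnePoint K}
    (hz₀ : toP z₀ ∈ U) (hz : toP z ∈ U) {c : Chart K} (hc : zpt c ∈ bd U) :
    dirR R (c.to z) = dirR R (c.to z₀) := by
  obtain ⟨N, hN, V, c₁, hV, hVd, hUV, hcl, hc₁, hc₁', hop, hbd⟩ := hole_data R hU
  have hU1 : ∀ y, y ∈ U ↔ ∀ i, y ∉ V i := by
    intro y
    rw [hUV, Set.mem_compl_iff, Set.mem_iUnion, not_exists]
  rw [hbd] at hc
  obtain ⟨i, hi⟩ := hc
  simp only at hi
  by_contra h2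
  refine (hU1 _).1 hz i ((disk_iff R (hV i) ?_ ?_ ((hU1 _).1 hz₀ i) z).2 h2)
  · rw [← hi]
    exact hc₁ i
  · rw [← hi]
    exact hc₁' i

/-- two sets which are adjacent to the same point in the same direction meet -/
theorem inter_of_dir (R : Residue K k) {U U' : Set (BerkP K)} (hU : HasHoles U) (hU' : HasHoles U')
    {z₀ z₀' : OnePoint K} (hz₀ : toP z₀ ∈ U) (hz₀' : toP z₀' ∈ U') {c : Chart K} (hc : zpt c ∈ bd U)
    (hc' : zpt c ∈ bd U') (hv : dirR R (c.to z₀) = dirR R (c.to z₀')) : (U ∩ U').Nonempty := by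
  obtain ⟨N, hN, V, c₁, hV, hVd, hUV, hcl, hc₁, hc₁', hop, hbd⟩ := hole_data R hU'
  have hU1 : ∀ y, y ∈ U' ↔ ∀ i, y ∉ V i := by
    intro y
    rw [hUV, Set.mem_compl_iff, Set.mem_iUnion, not_exists]
  have hopU := isOpen_of_hasHoles R hU
  rw [hbd] at hc'
  obtain ⟨i, hi⟩ := hc'
  simp only at hi
  have h1 : IsClosed (⋃ j : {j : Fin N // j ≠ i}, V j) :=
    isClosed_iUnion_of_finite fun j => hcl j
  have h2 : zpt c ∈ (⋃ j : {j : Fin N // j ≠ i}, V j)ᶜ := by
    rw [Set.mem_compl_iff, Set.mem_iUnion]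
    rintro ⟨j, hj⟩
    rw [← hi] at hj
    exact Set.disjoint_left.1 (hVd j i j.2) hj (hc₁ i)
  obtain ⟨y, hy⟩ := mem_closure_iff.1 hc.1 _ h1.isOpen_compl h2
  obtain ⟨z, hz⟩ := exists_toP_mem (h1.isOpen_compl.inter hopU) ⟨y, hy⟩
  refine ⟨toP z, hz.2, ?_⟩
  rw [hU1]
  intro j hj
  by_cases hji : j = i
  · rw [hji] at hj
    refine (disk_iff R (hV i) (c := c) ?_ ?_ ((hU1 _).1 hz₀' i) z).1 hj ?_
    · rw [← hi]
      exact hc₁ i
    · rw [← hi]
      exact hc₁' i
    · rw [← hv]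
      exact dir_eq R hU hz₀ hz.2 hc
  · exact hz.1 (Set.mem_iUnion.2 ⟨⟨j, hji⟩, hj⟩)

end FS31
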