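import Pool.Agent.FS31.Disk
import Pool.Agent.FS31.Fat
import Pool.Agent.FS16.NDegOne

/-!
# Neighbourhoods of type II points

MODULE FS31-NBH.
* `exists_nbh_dir`: the points of type I of direction `u` and radius `≤ t < 1` at `c` are contained in a closed
  set which does not contain `zpt c`.  Let `r = ‖c.ρ‖`, `zpt c = gp c.a r` (`del_gp`).  If `c` is not inverted,
  `x = (z - a)/ρ`: `u` finite: the closed set `{del · (a + ρ lift u) ≤ t r}` (compact in `BerkA K`, so closed), and
  `del (gp a r) (a + ρ lift u) = r > t r`; `u = ∞`, `0 < t`: `{∞} ∪ {r / t ≤ del · a}` (its complement is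
  `{del · a < r/t}`, open; for `t ≤ 0` only `z = ∞`, closed).  If `c` is inverted, `x = ρ/(z - a)`: `u = ∞`
  (`radR = ‖x‖⁻¹ ≤ t` or `x = ∞`): `‖z - a‖ ≤ t r`; `u = 0`: with `l = lift 0`, `‖l‖ < 1`, `t' = max t ‖l‖ < 1`,
  `‖x‖ ≤ t'`: `z = ∞` or `‖z - a‖ ≥ r / t'`; `u ≠ 0` finite, `l = lift u`, `‖l‖ = 1`, `‖x - l‖ ≤ t` implies `‖x‖ = 1` and
  `‖1/x - 1/l‖ = ‖x - l‖ ≤ t`, so `‖z - (a + ρ/l)‖ ≤ t r`.
* `exists_nbh`: the complement of the union of these closed sets for `u ∈ Per` (finite).
* `mem_fatou_of_inv`: let `A ξ` be sets of points of type I, `f (A ξ) ⊆ A (s ξ)`, such that `A ξ` contains the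
  points of type I of an open neighbourhood `N ξ` of `zpt (c ξ)`, and such that no `A ξ` meets the disc
  `{‖z - a‖ < r}`.  Then `zpt (c ξ) ∈ fatou f`: the points of type I are dense (`exists_toP_mem`), so
  `N ξ ⊆ closure (toP '' A ξ)`, `f.map` maps `closure (toP '' A ξ)` into `closure (toP '' A (s ξ))`
  (`map_toP`, `continuous_map`); so all `f.map^[n] '' N ξ` are in the finite union (closed) of the sets
  `closure (toP '' A η)`, which does not meet the open set `{del · a < r}`, so its complement contains the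
  infinitely many points `pt z`, `‖z - a‖ < r` (`pt_injective`; the disc is infinite: nontrivially normed).
-/

open Polynomial

noncomputable section

namespace FS31

open Pool.Agent.FIC FS16

universe u

variable {K k : Type u} [NontriviallyNormedField K] [IsUltrametricDist K] [IsAlgClosed K] [Field k]

/-- closed disks as subsets of the projective line -/
def nbC (b : K) (s : ℝ) : Set (BerkP K) := (fun ζ : BerkA K => (ζ : BerkP K)) '' cdisc b s

/-- complements of open disks as subsets of the projective line -/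
def nbE (b : K) (s : ℝ) : Set (BerkP K) := ((fun ζ : BerkA K => (ζ : BerkP K)) '' odisc b s)ᶜ

theorem isClosed_nbC (b : K) (s : ℝ) : IsClosed (nbC b s) :=
  ((isCompact_cdisc b s).image OnePoint.continuous_coe).isClosed

theorem isClosed_nbE (b : K) (s : ℝ) : IsClosed (nbE b s) := by
  unfold nbE
  rw [isClosed_compl_iff]
  exact OnePoint.isOpen_image_coe.2 (isOpen_odisc b s)

theorem zpt_notMem_nbC {c : Chart K} {b : K} {s : ℝ} (h : s < ‖c.ρ‖) : zpt c ∉ nbC b s := by
  rintro ⟨ζ, hζ, h1⟩
  have h2 : ζ = gp c.a ‖c.ρ‖ := OnePoint.coe_injective h1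
  have h3 : del ζ b ≤ s := hζ
  rw [h2, del_gp c.a (norm_pos_iff.2 c.hρ) b] at h3
  exact absurd ((le_max_right _ _).trans h3) (not_le.2 h)

theorem zpt_notMem_nbE {c : Chart K} {s : ℝ} (h : ‖c.ρ‖ < s) : zpt c ∉ nbE c.a s := by
  intro h1
  apply h1
  refine ⟨gp c.a ‖c.ρ‖, ?_, rfl⟩
  change del (gp c.a ‖c.ρ‖) c.a < s
  rw [del_gp c.a (norm_pos_iff.2 c.hρ), sub_self, norm_zero, max_eq_right (norm_nonneg _)]
  exact h

theorem toP_mem_nbC {b z : K} {s : ℝ} (h : ‖z - b‖ ≤ s) : toP (z : OnePoint K) ∈ nbC b s := by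
  refine ⟨pt z, ?_, rfl⟩
  change del (pt z) b ≤ s
  rw [del_pt]
  exact h

theorem toP_mem_nbE {b z : K} {s : ℝ} (h : s ≤ ‖z - b‖) : toP (z : OnePoint K) ∈ nbE b s := by
  rintro ⟨ζ, hζ, h1⟩
  have h2 : ζ = pt z := OnePoint.coe_injective h1
  have h3 : del ζ b < s := hζ
  rw [h2, del_pt] at h3
  exact absurd h (not_le.2 h3)

theorem infty_mem_nbE (b : K) (s : ℝ) : toP (OnePoint.infty : OnePoint K) ∈ nbE b s := by
  rintro ⟨ζ, hζ, h1⟩
  exact absurd h1 (OnePoint.coe_ne_infty _)

theorem exists_nbh_dir (R : Residue K k) (c : Chart K) (u : OnePoint k) {t : ℝ} (ht : t < 1) :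
    ∃ V : Set (BerkP K), IsClosed V ∧ zpt c ∉ V ∧
      ∀ z, dirR R (c.to z) = u → radR R u (c.to z) ≤ t → toP z ∈ V := by
  have hρ : 0 < ‖c.ρ‖ := norm_pos_iff.2 c.hρ
  rcases Bool.eq_false_or_eq_true c.inv with hi | hi
  · cases u using OnePoint.rec with
    | infty =>
      set t' := max t (1 / 2) with ht'
      have h1 : t' < 1 := max_lt ht (by norm_num)
      have h0 : 0 < t' := lt_of_lt_of_le (by norm_num) (le_max_right _ _)
      refine ⟨nbC c.a (t' * ‖c.ρ‖), isClosed_nbC _ _, zpt_notMem_nbC (by nlinarith), ?_⟩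
      intro z hz hr
      cases z using OnePoint.rec with
      | infty =>
        rw [c.d1_infty_inv hi, dirR_coe R (by simp)] at hz
        exact absurd hz (OnePoint.coe_ne_infty _)
      | coe z =>
        apply toP_mem_nbC
        by_cases hza : z = c.a
        · rw [hza, sub_self, norm_zero]
          positivity
        · rw [c.d1_coe_inv hi hza, radR_infty_coe, norm_div, inv_div, div_le_iff₀ hρ] at hr
          exact hr.trans (mul_le_mul_of_nonneg_right (le_max_left _ _) hρ.le)
    | coe u =>
      by_cases hu0 : u = 0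
      · have hl : ‖R.lift u‖ < 1 := by
          rw [← R.zero_iff _ (R.norm_lift u), R.red_lift]
          exact hu0
        set t' := max t (max ‖R.lift u‖ (1 / 2)) with ht'
        have h1 : t' < 1 := max_lt ht (max_lt hl (by norm_num))
        have h0 : 0 < t' := lt_of_lt_of_le (by norm_num)
          ((le_max_right _ _).trans (le_max_right _ _))
        refine ⟨nbE c.a (‖c.ρ‖ / t'), isClosed_nbE _ _, zpt_notMem_nbE ?_, ?_⟩
        · rw [lt_div_iff₀ h0]
          nlinarith
        intro z hz hr
        cases z using OnePoint.rec with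
        | infty => exact infty_mem_nbE _ _
        | coe z =>
          apply toP_mem_nbE
          by_cases hza : z = c.a
          · rw [hza, c.d1_a_inv hi, dirR_infty] at hz
            exact absurd hz (OnePoint.infty_ne_coe _)
          · have h2 : 0 < ‖z - c.a‖ := norm_pos_iff.2 (sub_ne_zero.2 hza)
            rw [c.d1_coe_inv hi hza, radR_coe] at hr
            have h3 := IsUltrametricDist.norm_add_le_max (c.ρ / (z - c.a) - R.lift u) (R.lift u)
            rw [sub_add_cancel] at h3
            have h4 : ‖c.ρ / (z - c.a)‖ ≤ t' := by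
              refine h3.trans (max_le (hr.trans (le_max_left _ _)) ?_)
              exact (le_max_left _ _).trans (le_max_right _ _)
            rw [norm_div, div_le_iff₀ h2] at h4
            rw [div_le_iff₀ h0]
            linarith
      · have hl : ‖R.lift u‖ = 1 := by
          rw [← R.norm_eq_one (R.norm_lift u), R.red_lift]
          exact hu0
        have hl0 : R.lift u ≠ 0 := by
          intro h
          rw [h, norm_zero] at hl
          exact absurd hl (by norm_num)
        refine ⟨nbC (c.a + c.ρ / R.lift u) (t * ‖c.ρ‖), isClosed_nbC _ _,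
          zpt_notMem_nbC (by nlinarith), ?_⟩
        intro z hz hr
        cases z using OnePoint.rec with
        | infty =>
          rw [c.d1_infty_inv hi, dirR_coe R (by simp), R.zero] at hz
          exact absurd (OnePoint.coe_injective hz).symm hu0
        | coe z =>
          apply toP_mem_nbC
          by_cases hza : z = c.a
          · rw [hza, c.d1_a_inv hi, dirR_infty] at hz
            exact absurd hz (OnePoint.infty_ne_coe _)
          · have h2 : z - c.a ≠ 0 := sub_ne_zero.2 hza
            rw [c.d1_coe_inv hi hza] at hr hz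
            obtain ⟨x, hx1, hx2, hx3⟩ := dirR_eq_coe R hz
            have hx4 : c.ρ / (z - c.a) = x := OnePoint.coe_injective hx1
            rw [hx4, radR_coe] at hr
            have hx5 : ‖x‖ = 1 := by
              rw [← R.norm_eq_one hx2, hx3]
              exact hu0
            have hx0 : x ≠ 0 := by
              intro h
              rw [h, norm_zero] at hx5
              exact absurd hx5 (by norm_num)
            have h5 : z - (c.a + c.ρ / R.lift u) = c.ρ * (R.lift u - x) / (x * R.lift u) := by
              have h6 : z - c.a = c.ρ / x := by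
                rw [← hx4]
                field_simp [c.hρ]
              rw [show z - (c.a + c.ρ / R.lift u) = (z - c.a) - c.ρ / R.lift u by ring, h6]
              field_simp
            rw [h5, norm_div, norm_mul, norm_mul, hx5, hl, mul_one, div_one, norm_sub_rev, mul_comm]
            exact mul_le_mul_of_nonneg_right hr hρ.le
  · cases u using OnePoint.rec with
    | infty =>
      set t' := max t (1 / 2) with ht'
      have h1 : t' < 1 := max_lt ht (by norm_num)
      have h0 : 0 < t' := lt_of_lt_of_le (by norm_num) (le_max_right _ _)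
      refine ⟨nbE c.a (‖c.ρ‖ / t'), isClosed_nbE _ _, zpt_notMem_nbE ?_, ?_⟩
      · rw [lt_div_iff₀ h0]
        nlinarith
      intro z hz hr
      cases z using OnePoint.rec with
      | infty => exact infty_mem_nbE _ _
      | coe z =>
        apply toP_mem_nbE
        rw [c.d1_coe_not_inv hi] at hz hr
        rw [radR_infty_coe, norm_div, inv_div] at hr
        have h2 : 1 < ‖(z - c.a) / c.ρ‖ := by
          by_contra h
          rw [dirR_coe R (not_lt.1 h)] at hz
          exact absurd hz (OnePoint.coe_ne_infty _)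
        rw [norm_div, one_lt_div hρ] at h2
        have h3 : 0 < ‖z - c.a‖ := hρ.trans h2
        have h4 : ‖c.ρ‖ / ‖z - c.a‖ ≤ t' := hr.trans (le_max_left _ _)
        rw [div_le_iff₀ h3] at h4
        rw [div_le_iff₀ h0]
        linarith
    | coe u =>
      refine ⟨nbC (c.a + c.ρ * R.lift u) (t * ‖c.ρ‖), isClosed_nbC _ _,
        zpt_notMem_nbC (by nlinarith), ?_⟩
      intro z hz hr
      cases z using OnePoint.rec with
      | infty =>
        rw [c.d1_infty_not_inv hi, dirR_infty] at hz
        exact absurd hz (OnePoint.infty_ne_coe _)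
      | coe z =>
        apply toP_mem_nbC
        rw [c.d1_coe_not_inv hi, radR_coe] at hr
        have h5 : z - (c.a + c.ρ * R.lift u) = ((z - c.a) / c.ρ - R.lift u) * c.ρ := by
          have := c.hρ
          field_simp
          ring
        rw [h5, norm_mul]
        exact mul_le_mul_of_nonneg_right hr hρ.le

theorem exists_nbh (R : Residue K k) (c : Chart K) {Per : Set (OnePoint k)} (hPer : Per.Finite)
    {t : ℝ} (ht : t < 1) :
    ∃ N : Set (BerkP K), IsOpen N ∧ zpt c ∈ N ∧ ∀ z, toP z ∈ N → z ∈ nbh R c Per t := by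
  choose V hV1 hV2 hV3 using fun u => exists_nbh_dir R c u ht
  refine ⟨(⋃ u ∈ Per, V u)ᶜ, (hPer.isClosed_biUnion fun u _ => hV1 u).isOpen_compl, ?_, ?_⟩
  · rw [Set.mem_compl_iff, Set.mem_iUnion₂]
    rintro ⟨u, _, hu⟩
    exact hV2 u hu
  · intro z hz hp
    by_contra h
    apply hz
    rw [Set.mem_iUnion₂]
    exact ⟨_, hp, hV3 _ z rfl (not_lt.1 h)⟩

theorem mem_fatou_of_inv {f : RatMap K} (hd : 1 ≤ f.degree) {Ξ : Type} [Fintype Ξ]
    (s : Equiv.Perm Ξ) (c : Ξ → Chart K) (A : Ξ → Set (OnePoint K))
    (hA : ∀ ξ, Set.MapsTo (toRM f).map (A ξ) (A (s ξ)))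
    (hN : ∀ ξ, ∃ N : Set (BerkP K), IsOpen N ∧ zpt (c ξ) ∈ N ∧ ∀ z, toP z ∈ N → z ∈ A ξ)
    {a : K} {r : ℝ} (hr : 0 < r) (hav : ∀ z : K, ‖z - a‖ < r → ∀ ξ, (z : OnePoint K) ∉ A ξ)
    (ξ : Ξ) : zpt (c ξ) ∈ fatou f := by
  obtain ⟨N, hN1, hN2, hN3⟩ := hN ξ
  refine ⟨N, hN1, hN2, ?_⟩
  have hstep : ∀ η, f.map '' closure (toP '' A η) ⊆ closure (toP '' A (s η)) := by
    intro η
    refine (image_closure_subset_closure_image (continuous_map f)).trans (closure_mono ?_)
    rintro _ ⟨_, ⟨z, hz, rfl⟩, rfl⟩
    rw [map_toP f hd]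
    exact ⟨_, hA η hz, rfl⟩
  have hit : ∀ n : ℕ, f.map^[n] '' N ⊆ closure (toP '' A (s^[n] ξ)) := by
    intro n
    induction n with
    | zero =>
      rw [Function.iterate_zero, Set.image_id]
      intro y hy
      rw [mem_closure_iff]
      intro O hO hyO
      obtain ⟨z, hz⟩ := exists_toP_mem (hO.inter hN1) ⟨y, hyO, hy⟩
      exact ⟨toP z, hz.1, z, hN3 z hz.2, rfl⟩
    | succ n ih =>
      rw [Function.iterate_succ', Function.iterate_succ', Set.image_comp]
      exact (Set.image_mono ih).trans (hstep _)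
  have hop : IsOpen ((fun ζ : BerkA K => (ζ : BerkP K)) '' odisc a r) :=
    OnePoint.isOpen_image_coe.2 (isOpen_odisc a r)
  have hdis : ∀ η, closure (toP '' A η) ⊆ ((fun ζ : BerkA K => (ζ : BerkP K)) '' odisc a r)ᶜ := by
    intro η
    refine closure_minimal ?_ hop.isClosed_compl
    rintro _ ⟨z, hz, rfl⟩ ⟨ζ, hζ, h1⟩
    cases z using OnePoint.rec with
    | infty => exact absurd h1 (OnePoint.coe_ne_infty _)
    | coe z =>
      have h2 : ζ = pt z := OnePoint.coe_injective h1
      have h3 : del ζ a < r := hζ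
      rw [h2, del_pt] at h3
      exact hav z h3 η hz
  have hinf : (Metric.ball a r).Infinite := infinite_of_mem_nhds a (Metric.ball_mem_nhds a hr)
  have hinj : Function.Injective fun z : K => ((pt z : BerkA K) : BerkP K) := fun x y h =>
    pt_injective (OnePoint.coe_injective h)
  refine (hinf.image hinj.injOn).mono ?_
  rintro _ ⟨z, hz, rfl⟩
  rw [Set.mem_compl_iff, Set.mem_iUnion]
  rintro ⟨n, hn⟩
  refine hdis _ (hit n hn) ⟨pt z, ?_, rfl⟩
  change del (pt z) a < r
  rw [del_pt, ← dist_eq_norm]
  exact hz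

end FS31
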