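import Pool.Agent.FS31.Holes
import Pool.Agent.FS31.Good
import Pool.Agent.FS16.NStep
import Pool.Agent.FS31.Nbh

/-!
# Construction of a `Step`

MODULE FS31-STEP.
* `map_dir`: `x ∈ bd U`, `f x ∈ bd (f '' U)`, charts `c` at `x` and `c'` at `f x`.  Let `u = dirR R (c.to z₀)` and let `t < 1` be
  as in `thin_dir` for `f.cj c c'`.  There is `z` with `toP z ∈ U` and radius `> t` in the direction `u` at `c`: the
  closed set `V` of `exists_nbh_dir` does not contain `x`, so the open set `U ∩ Vᶜ` is not empty (`x ∈ closure U`) and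
  contains a point of type I (`exists_toP_mem`); its direction at `c` is `u` (`dir_eq`).  The direction of
  `f z ∈ f '' U` at `c'` is that of `z₀'` (`dir_eq`), and it is `T.map u` (`thin_dir`, `RM.cj_map`, `map_toP`).
* `exists_step`: `ι = Fin (card of bd U)`, or rather the finite type `bd U` transported to `Type` (`Finite.equivFin`);
  at the points `x true ≠ x false` use the given charts and reductions, at the others arbitrary charts
  (`exists_chart_bd`, at `p` and at `f p ∈ bd (f '' U)`) and reductions (`exists_goodRed`).  `v`, `v'` are the directions of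
  `z₀`, `z₀'`.  `Tv` by `map_dir`; `disj`, `disj'` by `disj` (`f` is injective on `bd U`); `one`: `b ∈ f '' U` by `mem_iff`
  (every point of `bd (f '' U)` is `f p`, `hbd`), `card_filter_fibM`, `OneToOneOn`, and `toP z ∈ U` iff all directions
  are right (`mem_iff`); `zero`: an element `z` of the fibre (`RM.mem_fibM`) in `U` has `f z = b ∈ f '' U`; `ne`: `z₀'`.
-/

open Polynomial

noncomputable section

namespace FS31

open Pool.Agent.FIC FS16

universe u

variable {K k : Type u} [NontriviallyNormedField K] [IsUltrametricDist K] [IsAlgClosed K] [Field k]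
  [IsAlgClosed k]

theorem map_dir (R : Residue K k) {f : RatMap K} (hd : 1 ≤ f.degree) {U : Set (BerkP K)}
    (hU : HasHoles U) (hU' : HasHoles (f.map '' U)) {c c' : Chart K} (hc : zpt c ∈ bd U)
    (hc' : zpt c' = f.map (zpt c)) (hc'' : zpt c' ∈ bd (f.map '' U)) {z₀ z₀' : OnePoint K}
    (hz₀ : toP z₀ ∈ U) (hz₀' : toP z₀' ∈ f.map '' U) {T : RM k} {h : k[X]}
    (hg : GoodRed R ((toRM f).cj c c') h T) : T.map (dirR R (c.to z₀)) = dirR R (c'.to z₀') := by
  obtain ⟨t, ht1, ht⟩ := thin_dir hg (dirR R (c.to z₀))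
  obtain ⟨V, hVc, hzV, hV⟩ := exists_nbh_dir R c (dirR R (c.to z₀)) ht1
  have hne : (U ∩ Vᶜ).Nonempty := by
    have h1 := mem_closure_iff.1 hc.1 Vᶜ hVc.isOpen_compl hzV
    rwa [Set.inter_comm] at h1
  obtain ⟨z, hz⟩ := exists_toP_mem ((isOpen_of_hasHoles R hU).inter hVc.isOpen_compl) hne
  have h2 : dirR R (c.to z) = dirR R (c.to z₀) := dir_eq R hU hz₀ hz.1 hc
  have h3 : t < radR R (dirR R (c.to z₀)) (c.to z) := by
    by_contra hcon
    exact hz.2 (hV z h2 (not_lt.1 hcon))
  have h4 := ht (c.to z) h2 h3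
  rw [RM.cj_map (toRM f) hd c c' z] at h4
  have h5 : toP ((toRM f).map z) ∈ f.map '' U := ⟨toP z, hz.1, map_toP f hd z⟩
  rw [← h4]
  exact dir_eq R hU' hz₀' h5 hc''

theorem exists_step (R : Residue K k) {f : RatMap K} (hd : 1 ≤ f.degree) {U : Set (BerkP K)}
    (hU : HasHoles U) (hU' : HasHoles (f.map '' U)) (h1 : OneToOneOn f U)
    (hbd : f.map '' bd U = bd (f.map '' U)) (hinj : Set.InjOn f.map (bd U)) {z₀ z₀' : OnePoint K}
    (hz₀ : toP z₀ ∈ U) (hz₀' : toP z₀' ∈ f.map '' U) {x : Bool → BerkP K} (hx : ∀ b, x b ∈ bd U)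
    (hne : x true ≠ x false) (c c' : Bool → Chart K) (hc : ∀ b, zpt (c b) = x b)
    (hc' : ∀ b, zpt (c' b) = f.map (x b)) (T : Bool → RM k) (h : Bool → k[X])
    (hg : ∀ b, GoodRed R ((toRM f).cj (c b) (c' b)) (h b) (T b)) :
    ∃ (ι : Type) (_ : Fintype ι) (S : Step R (toRM f) ι) (y : Bool → ι), y true ≠ y false ∧
      ∀ b, S.c (y b) = c b ∧ S.c' (y b) = c' b ∧ S.T (y b) = T b ∧ S.h (y b) = h b ∧
        S.v (y b) = dirR R ((c b).to z₀) ∧ S.v' (y b) = dirR R ((c' b).to z₀') := by
  classical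
  have hxinj : ∀ b b', x b = x b' → b = b' := by
    intro b b' hb
    cases b <;> cases b'
    · rfl
    · exact absurd hb.symm hne
    · exact absurd hb hne
    · rfl
  have hmapbd : ∀ p ∈ bd U, f.map p ∈ bd (f.map '' U) := fun p hp => by
    rw [← hbd]
    exact ⟨p, hp, rfl⟩
  have hex : ∀ p : BerkP K, ∃ D : Chart K × Chart K × RM k × k[X], p ∈ bd U →
      (zpt D.1 = p ∧ zpt D.2.1 = f.map p ∧ GoodRed R ((toRM f).cj D.1 D.2.1) D.2.2.2 D.2.2.1 ∧
        ∀ b, p = x b → D = (c b, c' b, T b, h b)) := by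
    intro p
    by_cases hp : p ∈ bd U
    · by_cases hb : ∃ b, p = x b
      · obtain ⟨b, rfl⟩ := hb
        refine ⟨(c b, c' b, T b, h b), fun _ => ⟨hc b, hc' b, hg b, fun b' hb' => ?_⟩⟩
        rw [hxinj b b' hb']
      · obtain ⟨c1, hc1⟩ := exists_chart_bd R hU hp
        obtain ⟨c2, hc2⟩ := exists_chart_bd R hU' (hmapbd p hp)
        obtain ⟨h', T', hg'⟩ := exists_goodRed R f (c := c1) (c' := c2) (by rw [hc1, hc2])
        exact ⟨(c1, c2, T', h'), fun _ => ⟨hc1, hc2, hg', fun b hb' => absurd ⟨b, hb'⟩ hb⟩⟩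
    · exact ⟨(c true, c' true, T true, h true), fun hp' => absurd hp' hp⟩
  choose D hD using hex
  -- the charts of the image
  have hmem : ∀ z, toP z ∈ U ↔ ∀ p ∈ bd U, dirR R ((D p).1.to z) = dirR R ((D p).1.to z₀) :=
    fun z => mem_iff R hU hz₀ (c := fun p => (D p).1) (fun p hp => (hD p hp).1) z
  have hinv : ∀ p ∈ bd U, Function.invFunOn f.map (bd U) (f.map p) = p := fun p hp =>
    hinj.leftInvOn_invFunOn hp
  have hmem' : ∀ z, toP z ∈ f.map '' U ↔
      ∀ p ∈ bd U, dirR R ((D p).2.1.to z) = dirR R ((D p).2.1.to z₀') := by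
    intro z
    rw [mem_iff R hU' hz₀' (c := fun q => (D (Function.invFunOn f.map (bd U) q)).2.1)
      (fun q hq => by
        rw [← hbd] at hq
        obtain ⟨p, hp, rfl⟩ := hq
        change zpt (D (Function.invFunOn f.map (bd U) (f.map p))).2.1 = _
        rw [hinv p hp]
        exact (hD p hp).2.1) z]
    constructor
    · intro hq p hp
      have h2 := hq (f.map p) (hmapbd p hp)
      change dirR R ((D (Function.invFunOn f.map (bd U) (f.map p))).2.1.to z) =
        dirR R ((D (Function.invFunOn f.map (bd U) (f.map p))).2.1.to z₀') at h2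
      rwa [hinv p hp] at h2
    · intro hp q hq
      rw [← hbd] at hq
      obtain ⟨p, hp', rfl⟩ := hq
      change dirR R ((D (Function.invFunOn f.map (bd U) (f.map p))).2.1.to z) =
        dirR R ((D (Function.invFunOn f.map (bd U) (f.map p))).2.1.to z₀')
      rw [hinv p hp']
      exact hp p hp'
  have hfin : Finite (bd U) := (bd_finite R hU).to_subtype
  let e : Fin (Nat.card (bd U)) ≃ bd U := (Finite.equivFin (bd U)).symm
  have hall : ∀ P : BerkP K → Prop, (∀ i, P (e i).1) ↔ ∀ p ∈ bd U, P p := by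
    intro P
    constructor
    · intro hP p hp
      have h2 := hP (e.symm ⟨p, hp⟩)
      rwa [e.apply_symm_apply] at h2
    · intro hP i
      exact hP _ (e i).2
  have hS : ∀ z, (∀ i, dirR R ((D (e i).1).1.to z) = dirR R ((D (e i).1).1.to z₀)) ↔ toP z ∈ U :=
    fun z => (hall fun p => dirR R ((D p).1.to z) = dirR R ((D p).1.to z₀)).trans (hmem z).symm
  have hS' : ∀ z, (∀ i, dirR R ((D (e i).1).2.1.to z) = dirR R ((D (e i).1).2.1.to z₀')) ↔
      toP z ∈ f.map '' U :=
    fun z => (hall fun p => dirR R ((D p).2.1.to z) = dirR R ((D p).2.1.to z₀')).trans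
      (hmem' z).symm
  let S : Step R (toRM f) (Fin (Nat.card (bd U))) :=
    { c := fun i => (D (e i).1).1
      c' := fun i => (D (e i).1).2.1
      v := fun i => dirR R ((D (e i).1).1.to z₀)
      v' := fun i => dirR R ((D (e i).1).2.1.to z₀')
      T := fun i => (D (e i).1).2.2.1
      h := fun i => (D (e i).1).2.2.2
      good := fun i => (hD _ (e i).2).2.2.1
      Tv := fun i => by
        obtain ⟨ha, hb, hg', -⟩ := hD _ (e i).2
        refine map_dir R hd hU hU' ?_ ?_ ?_ hz₀ hz₀' hg'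
        · rw [ha]
          exact (e i).2
        · rw [ha, hb]
        · rw [hb]
          exact hmapbd _ (e i).2
      disj := fun i j hij z hz => by
        obtain ⟨ha, -⟩ := hD _ (e i).2
        obtain ⟨ha', -⟩ := hD _ (e j).2
        exact disj R hU hz₀ (e i).2 (e j).2
          (fun hh => hij (e.injective (Subtype.ext hh))) ha ha' z hz
      disj' := fun i j hij z hz => by
        obtain ⟨-, hb, -⟩ := hD _ (e i).2
        obtain ⟨-, hb', -⟩ := hD _ (e j).2
        exact disj R hU' hz₀' (hmapbd _ (e i).2) (hmapbd _ (e j).2)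
          (fun hh => hij (e.injective (Subtype.ext (hinj (e i).2 (e j).2 hh)))) hb hb' z hz
      one := fun b hb => by
        have h2 := h1.2 b ((hS' b).1 hb)
        rw [← card_filter_fibM, nStepN_eq] at h2
        refine (@nStepN_eq _ _ _ (_)).trans (Eq.trans ?_ h2)
        congr 1
        funext z
        exact propext (hS z)
      zero := fun b hb => by
        refine Multiset.card_eq_zero.2 ((@Multiset.filter_eq_nil _ _ (_) _).2 ?_)
        intro z hz hz'
        apply hb
        have h2 : (toRM f).map z = b := (RM.mem_fibM (toRM f) hd b z).1 hz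
        have h3 : toP z ∈ U := (hS z).1 hz'
        refine (hS' b).2 ⟨toP z, h3, ?_⟩
        rw [map_toP f hd z, h2]
      ne := ⟨z₀', fun i => rfl⟩ }
  refine ⟨Fin (Nat.card (bd U)), inferInstance, S, fun b => e.symm ⟨x b, hx b⟩, ?_, fun b => ?_⟩
  · intro hh
    exact hne (congrArg Subtype.val (e.symm.injective hh))
  · have h2 : (e (e.symm ⟨x b, hx b⟩)).1 = x b := by rw [e.apply_symm_apply]
    have h3 : D (x b) = (c b, c' b, T b, h b) := (hD (x b) (hx b)).2.2.2 b rfl
    refine ⟨?_, ?_, ?_, ?_, ?_, ?_⟩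
    · change (D (e (e.symm ⟨x b, hx b⟩)).1).1 = c b
      rw [h2, h3]
    · change (D (e (e.symm ⟨x b, hx b⟩)).1).2.1 = c' b
      rw [h2, h3]
    · change (D (e (e.symm ⟨x b, hx b⟩)).1).2.2.1 = T b
      rw [h2, h3]
    · change (D (e (e.symm ⟨x b, hx b⟩)).1).2.2.2 = h b
      rw [h2, h3]
    · change dirR R ((D (e (e.symm ⟨x b, hx b⟩)).1).1.to z₀) = _
      rw [h2, h3]
    · change dirR R ((D (e (e.symm ⟨x b, hx b⟩)).1).2.1.to z₀') = _
      rw [h2, h3]

end FS31
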